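import Pool.Agent.TH862.CombT

set_option autoImplicit false

namespace Pool.Agent.TH862.EA

open Finset

variable {n : ℕ} [NeZero n]

/-- pairing -/
def pr (ξ v : ZMod n × ZMod n) : ZMod n := ξ.1 * v.1 + ξ.2 * v.2

/-- the character -/
noncomputable def ch (ξ v : ZMod n × ZMod n) : ℂ := ZMod.stdAddChar (pr ξ v)

theorem ch_add_right (ξ v w : ZMod n × ZMod n) : ch ξ (v + w) = ch ξ v * ch ξ w := by
  unfold ch pr
  rw [← AddChar.map_add_eq_mul]
  congr 1
  simp only [Prod.fst_add, Prod.snd_add]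
  ring

theorem ch_neg_right (ξ v : ZMod n × ZMod n) : ch ξ (-v) = (starRingEnd ℂ) (ch ξ v) := by
  unfold ch
  have : pr ξ (-v) = - pr ξ v := by simp [pr]; ring
  rw [this, AddChar.map_neg_eq_conj]

theorem norm_ch (ξ v : ZMod n × ZMod n) : ‖ch ξ v‖ = 1 := by
  unfold ch
  exact AddChar.norm_apply _ _

theorem sum_ch (v : ZMod n × ZMod n) :
    ∑ ξ : ZMod n × ZMod n, ch ξ v = if v = 0 then (n : ℂ) ^ 2 else 0 := by
  have h1 : ∑ ξ : ZMod n × ZMod n, ch ξ v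
      = (∑ x : ZMod n, ZMod.stdAddChar (x * v.1)) * (∑ y : ZMod n, ZMod.stdAddChar (y * v.2) : ℂ) := by
    rw [Fintype.sum_prod_type, sum_mul_sum]
    apply sum_congr rfl; intro x _
    apply sum_congr rfl; intro y _
    unfold ch pr
    rw [AddChar.map_add_eq_mul]
  rw [h1, AddChar.sum_mulShift _ (ZMod.isPrimitive_stdAddChar n),
    AddChar.sum_mulShift _ (ZMod.isPrimitive_stdAddChar n), ZMod.card]
  by_cases h : v = 0
  · simp [h]; ring
  · rw [if_neg h]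
    by_cases h2 : v.1 = 0
    · have h3 : v.2 ≠ 0 := fun h3 => h (Prod.ext h2 h3)
      simp [h3]
    · simp [h2]

theorem sum_ch' (ξ : ZMod n × ZMod n) :
    ∑ v : ZMod n × ZMod n, ch ξ v = if ξ = 0 then (n : ℂ) ^ 2 else 0 := by
  rw [← sum_ch ξ]
  apply sum_congr rfl
  intro v _
  unfold ch pr
  congr 1
  ring

/-- Parseval -/
theorem parseval (h : ZMod n × ZMod n → ℂ) :
    ∑ ξ : ZMod n × ZMod n, ‖∑ v, ch ξ (-v) * h v‖ ^ 2 = (n : ℝ) ^ 2 * ∑ v, ‖h v‖ ^ 2 := by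
  have key : ∑ ξ : ZMod n × ZMod n, (∑ v, ch ξ (-v) * h v) * (starRingEnd ℂ) (∑ w, ch ξ (-w) * h w)
      = (n : ℂ) ^ 2 * ∑ v, h v * (starRingEnd ℂ) (h v) := by
    calc ∑ ξ : ZMod n × ZMod n, (∑ v, ch ξ (-v) * h v) * (starRingEnd ℂ) (∑ w, ch ξ (-w) * h w)
        = ∑ ξ : ZMod n × ZMod n, ∑ v, ∑ w, ch ξ (w - v) * (h v * (starRingEnd ℂ) (h w)) := by
          apply sum_congr rfl; intro ξ _
          rw [map_sum, sum_mul_sum]
          apply sum_congr rfl; intro v _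
          apply sum_congr rfl; intro w _
          rw [map_mul, ← ch_neg_right, neg_neg, sub_eq_add_neg, ch_add_right]
          ring
      _ = ∑ v, ∑ w, (∑ ξ : ZMod n × ZMod n, ch ξ (w - v)) * (h v * (starRingEnd ℂ) (h w)) := by
          rw [sum_comm]
          apply sum_congr rfl; intro v _
          rw [sum_comm]
          apply sum_congr rfl; intro w _
          rw [sum_mul]
      _ = ∑ v, (n : ℂ) ^ 2 * (h v * (starRingEnd ℂ) (h v)) := by
          apply sum_congr rfl; intro v _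
          rw [sum_eq_single v]
          · rw [sum_ch, sub_self, if_pos rfl]
          · intro w _ hw
            rw [sum_ch, if_neg (sub_ne_zero.mpr hw), zero_mul]
          · intro h; exact absurd (mem_univ _) h
      _ = _ := by rw [mul_sum]
  have h2 : ∀ z : ℂ, z * (starRingEnd ℂ) z = ((‖z‖ ^ 2 : ℝ) : ℂ) := by
    intro z
    rw [Complex.mul_conj, Complex.normSq_eq_norm_sq]
  simp only [h2] at key
  exact_mod_cast key

section Act

variable {Ω : Type} [Fintype Ω] (act : ZMod n × ZMod n → Ω → Ω)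

/-- Fourier coefficient -/
noncomputable def fc (f : Ω → ℝ) (ξ : ZMod n × ZMod n) (A : Ω) : ℂ :=
  ∑ v, ch ξ (-v) * (f (act v A) : ℂ)

theorem fc_sub (f g : Ω → ℝ) (ξ : ZMod n × ZMod n) (A : Ω) :
    fc act (fun A => f A - g A) ξ A = fc act f ξ A - fc act g ξ A := by
  unfold fc
  rw [← sum_sub_distrib]
  apply sum_congr rfl; intro v _
  push_cast
  ring

variable (hact0 : ∀ A, act 0 A = A) (hactadd : ∀ v w A, act (v + w) A = act v (act w A))

/-- the action as a permutation -/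
def actEquiv (v : ZMod n × ZMod n) : Ω ≃ Ω where
  toFun := act v
  invFun := act (-v)
  left_inv A := by rw [← hactadd, neg_add_cancel, hact0]
  right_inv A := by rw [← hactadd, add_neg_cancel, hact0]

include hact0 hactadd

theorem total_parseval (f : Ω → ℝ) :
    ∑ ξ : ZMod n × ZMod n, ∑ A, ‖fc act f ξ A‖ ^ 2 = (n : ℝ) ^ 4 * ∑ A, f A ^ 2 := by
  rw [sum_comm]
  have h1 : ∀ A : Ω, ∑ ξ : ZMod n × ZMod n, ‖fc act f ξ A‖ ^ 2 = (n : ℝ) ^ 2 * ∑ v, f (act v A) ^ 2 := by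
    intro A
    unfold fc
    rw [parseval]
    congr 1
    apply sum_congr rfl; intro v _
    rw [Complex.norm_real, Real.norm_eq_abs, sq_abs]
  simp only [h1]
  rw [← mul_sum, sum_comm]
  have h2 : ∀ v : ZMod n × ZMod n, ∑ A, f (act v A) ^ 2 = ∑ A, f A ^ 2 := by
    intro v
    exact Equiv.sum_comp (actEquiv act hact0 hactadd v) (fun A => f A ^ 2)
  simp only [h2]
  rw [sum_const, card_univ, Fintype.card_prod, ZMod.card, nsmul_eq_mul]
  push_cast
  ring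

omit hact0 hactadd

/-- the magnitude of the Fourier component -/
noncomputable def mag (f : Ω → ℝ) (ξ : ZMod n × ZMod n) : ℝ :=
  Real.sqrt (∑ A, ‖fc act f ξ A‖ ^ 2) / (n : ℝ) ^ 2

theorem mag_sq (f : Ω → ℝ) (ξ : ZMod n × ZMod n) :
    mag act f ξ ^ 2 = (∑ A, ‖fc act f ξ A‖ ^ 2) / (n : ℝ) ^ 4 := by
  unfold mag
  rw [div_pow, Real.sq_sqrt (sum_nonneg fun _ _ => by positivity)]
  congr 1
  ring

theorem norm_diff_sq (x y : Ω → ℂ) :
    (Real.sqrt (∑ A, ‖x A‖ ^ 2) - Real.sqrt (∑ A, ‖y A‖ ^ 2)) ^ 2 ≤ ∑ A, ‖x A - y A‖ ^ 2 := by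
  have h1 := abs_norm_sub_norm_le (WithLp.toLp 2 x : EuclideanSpace ℂ Ω) (WithLp.toLp 2 y)
  rw [EuclideanSpace.norm_eq, EuclideanSpace.norm_eq, EuclideanSpace.norm_eq] at h1
  simp only [PiLp.sub_apply] at h1
  have h2 := sq_le_sq' (by linarith [abs_nonneg (Real.sqrt (∑ A, ‖x A‖ ^ 2) - Real.sqrt (∑ A, ‖y A‖ ^ 2)), Real.sqrt_nonneg (∑ A, ‖x A - y A‖ ^ 2)]) h1
  rw [sq_abs, Real.sq_sqrt (sum_nonneg fun _ _ => by positivity)] at h2
  exact h2

include hact0 hactadd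

theorem sum_mag (f : Ω → ℝ) : ∑ ξ, mag act f ξ ^ 2 = ∑ A, f A ^ 2 := by
  simp only [mag_sq]
  rw [← sum_div, total_parseval act hact0 hactadd]
  have : (n : ℝ) ≠ 0 := by exact_mod_cast NeZero.ne n
  field_simp

/-- almost invariance of `f` under `U` gives almost invariance of the magnitude -/
theorem mag_almost (f : Ω → ℝ) (U : Ω ≃ Ω) (u : (ZMod n × ZMod n) ≃ (ZMod n × ZMod n))
    (hU : ∀ v A, U (act v A) = act (u v) (U A))
    (u' : (ZMod n × ZMod n) ≃ (ZMod n × ZMod n)) (hu' : ∀ ξ v, pr (u' ξ) (u v) = pr ξ v)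
    (huneg : ∀ v, u (-v) = - u v) :
    ∑ ξ, (mag act f (u' ξ) - mag act f ξ) ^ 2 ≤ ∑ A, (f (U A) - f A) ^ 2 := by
  have h1 : ∀ ξ A, fc act (fun A => f (U A)) ξ A = fc act f (u' ξ) (U A) := by
    intro ξ A
    unfold fc
    rw [← Equiv.sum_comp u (fun v => ch (u' ξ) (-v) * (f (act v (U A)) : ℂ))]
    apply sum_congr rfl; intro v _
    beta_reduce
    rw [hU]
    congr 1
    unfold ch
    congr 1
    rw [← huneg, hu']
  have h2 : ∀ ξ, mag act (fun A => f (U A)) ξ = mag act f (u' ξ) := by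
    intro ξ
    unfold mag
    congr 2
    simp only [h1]
    exact Equiv.sum_comp U (fun A => ‖fc act f (u' ξ) A‖ ^ 2)
  have h3 : ∀ ξ, (mag act f (u' ξ) - mag act f ξ) ^ 2
      ≤ (∑ A, ‖fc act (fun A => f (U A) - f A) ξ A‖ ^ 2) / (n : ℝ) ^ 4 := by
    intro ξ
    rw [← h2]
    unfold mag
    rw [← sub_div, div_pow]
    have h4 := norm_diff_sq (fun A => fc act (fun A => f (U A)) ξ A) (fun A => fc act f ξ A)
    have h5 : ((n : ℝ) ^ 2) ^ 2 = (n : ℝ) ^ 4 := by ring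
    rw [h5]
    apply div_le_div_of_nonneg_right _ (by positivity)
    refine h4.trans (le_of_eq ?_)
    apply sum_congr rfl; intro A _
    rw [← fc_sub]
  calc ∑ ξ, (mag act f (u' ξ) - mag act f ξ) ^ 2
      ≤ ∑ ξ, (∑ A, ‖fc act (fun A => f (U A) - f A) ξ A‖ ^ 2) / (n : ℝ) ^ 4 :=
        sum_le_sum fun ξ _ => h3 ξ
    _ = ∑ A, (f (U A) - f A) ^ 2 := by
        rw [← sum_div, total_parseval act hact0 hactadd]
        have : (n : ℝ) ≠ 0 := by exact_mod_cast NeZero.ne n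
        field_simp

theorem mag_trans (f : Ω → ℝ) (w : ZMod n × ZMod n) :
    ∑ ξ, ‖ch ξ w - 1‖ ^ 2 * mag act f ξ ^ 2 = ∑ A, (f (act w A) - f A) ^ 2 := by
  have h1 : ∀ ξ A, fc act (fun A => f (act w A)) ξ A = ch ξ w * fc act f ξ A := by
    intro ξ A
    unfold fc
    rw [← Equiv.sum_comp (Equiv.addLeft w) (fun v => ch ξ (-v) * (f (act v A) : ℂ)), mul_sum]
    apply sum_congr rfl; intro v _
    simp only [Equiv.coe_addLeft]
    rw [← hactadd, neg_add, ch_add_right, ch_neg_right ξ w, ← mul_assoc, ← mul_assoc,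
      Complex.mul_conj, Complex.normSq_eq_norm_sq, norm_ch]
    simp
  have h2 := total_parseval act hact0 hactadd (fun A => f (act w A) - f A)
  have h3 : ∀ ξ A, fc act (fun A => f (act w A) - f A) ξ A = (ch ξ w - 1) * fc act f ξ A := by
    intro ξ A
    rw [fc_sub act (fun A => f (act w A)) f, h1]
    ring
  simp only [h3, norm_mul, mul_pow, ← mul_sum] at h2
  simp only [mag_sq]
  have hn : (n : ℝ) ≠ 0 := by exact_mod_cast NeZero.ne n
  have h4 : ∑ ξ, ‖ch ξ w - 1‖ ^ 2 * ((∑ A, ‖fc act f ξ A‖ ^ 2) / (n : ℝ) ^ 4)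
      = (∑ ξ, ‖ch ξ w - 1‖ ^ 2 * ∑ A, ‖fc act f ξ A‖ ^ 2) / (n : ℝ) ^ 4 := by
    rw [sum_div]
    apply sum_congr rfl; intro ξ _
    ring
  rw [h4, h2]
  field_simp

/-- the average over the action -/
noncomputable def av (f : Ω → ℝ) (A : Ω) : ℝ := (∑ v : ZMod n × ZMod n, f (act v A)) / (n : ℝ) ^ 2

theorem av_act (f : Ω → ℝ) (w : ZMod n × ZMod n) (A : Ω) : av act f (act w A) = av act f A := by
  unfold av
  congr 1
  rw [← Equiv.sum_comp (Equiv.addRight w) (fun v => f (act v A))]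
  apply sum_congr rfl; intro v _
  simp only [Equiv.coe_addRight]
  rw [hactadd]

theorem sum_sub_av (f : Ω → ℝ) :
    ∑ A, (f A - av act f A) ^ 2 = ∑ ξ with ξ ≠ 0, mag act f ξ ^ 2 := by
  have hn : (n : ℝ) ≠ 0 := by exact_mod_cast NeZero.ne n
  have hnC : (n : ℂ) ≠ 0 := by exact_mod_cast NeZero.ne n
  have h1 : ∀ ξ A, fc act (av act f) ξ A = if ξ = 0 then (n : ℂ) ^ 2 * (av act f A : ℂ) else 0 := by
    intro ξ A
    unfold fc
    simp only [av_act act hact0 hactadd f]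
    rw [← sum_mul]
    have h2 : ∑ v : ZMod n × ZMod n, ch ξ (-v) = ∑ v : ZMod n × ZMod n, ch ξ v :=
      Equiv.sum_comp (Equiv.neg _) (fun v => ch ξ v)
    rw [h2, sum_ch']
    split_ifs <;> simp
  have h2 : ∀ A, fc act f 0 A = (n : ℂ) ^ 2 * (av act f A : ℂ) := by
    intro A
    unfold fc av
    have : ∀ v : ZMod n × ZMod n, ch (0 : ZMod n × ZMod n) (-v) = 1 := by
      intro v; unfold ch pr; simp
    simp only [this, one_mul]
    push_cast
    field_simp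
  have h3 : ∀ ξ A, fc act (fun A => f A - av act f A) ξ A = if ξ = 0 then 0 else fc act f ξ A := by
    intro ξ A
    rw [fc_sub, h1]
    split_ifs with h
    · rw [h, h2]; ring
    · ring
  have h4 := total_parseval act hact0 hactadd (fun A => f A - av act f A)
  have h5 : ∑ ξ : ZMod n × ZMod n, ∑ A, ‖fc act (fun A => f A - av act f A) ξ A‖ ^ 2
      = ∑ ξ : ZMod n × ZMod n with ξ ≠ 0, ∑ A, ‖fc act f ξ A‖ ^ 2 := by
    rw [sum_filter]
    apply sum_congr rfl; intro ξ _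
    simp only [h3]
    by_cases h : ξ = 0
    · simp [h]
    · simp [h]
  rw [h5] at h4
  simp only [mag_sq]
  rw [← sum_div, h4]
  field_simp

omit [Fintype Ω] hact0 hactadd in
theorem far_char (x : ZMod n) (hx : (n : ℤ) ≤ 4 * |x.valMinAbs|) :
    2 ≤ ‖(ZMod.stdAddChar x : ℂ) - 1‖ ^ 2 := by
  set θ : ℝ := 2 * Real.pi * (x.valMinAbs : ℝ) / n with hθ
  have hn : (0 : ℝ) < n := by exact_mod_cast Nat.pos_of_ne_zero (NeZero.ne n)
  have h1 : (ZMod.stdAddChar x : ℂ) = Complex.exp (θ * Complex.I) := by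
    have h2 := ZMod.stdAddChar_coe (N := n) x.valMinAbs
    rw [ZMod.coe_valMinAbs] at h2
    rw [h2, hθ]
    congr 1
    push_cast
    ring
  have h3 : ‖(ZMod.stdAddChar x : ℂ) - 1‖ ^ 2 = 2 - 2 * Real.cos θ := by
    rw [h1, Complex.exp_mul_I, ← Complex.normSq_eq_norm_sq, Complex.normSq_apply]
    simp only [Complex.sub_re, Complex.add_re, Complex.mul_re, Complex.I_re, Complex.I_im,
      Complex.sub_im, Complex.add_im, Complex.mul_im, Complex.one_re, Complex.one_im,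
      ← Complex.ofReal_cos, ← Complex.ofReal_sin, Complex.ofReal_re, Complex.ofReal_im]
    nlinarith [Real.sin_sq_add_cos_sq θ]
  have h4 : Real.cos θ ≤ 0 := by
    rw [← Real.cos_abs]
    have h5 : |θ| = 2 * Real.pi * |(x.valMinAbs : ℝ)| / n := by
      rw [hθ, abs_div, abs_mul, abs_mul, abs_of_pos hn, abs_of_pos Real.pi_pos]
      norm_num
    have h6 : (n : ℝ) ≤ 4 * |(x.valMinAbs : ℝ)| := by exact_mod_cast hx
    have h7 : |(x.valMinAbs : ℝ)| * 2 ≤ n := by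
      have h8 := ZMod.valMinAbs_mem_Ioc x
      rw [Set.mem_Ioc] at h8
      have h9 : |x.valMinAbs| * 2 ≤ n := by
        rcases abs_cases x.valMinAbs with h | h <;> omega
      exact_mod_cast h9
    apply Real.cos_nonpos_of_pi_div_two_le_of_le
    · rw [h5, le_div_iff₀ hn]
      nlinarith [Real.pi_pos]
    · rw [h5, div_le_iff₀ hn]
      nlinarith [Real.pi_pos]
  rw [h3]; linarith

open Classical in
/-- Relative property (T), quantitative elementary form. -/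
theorem relT (U L : Ω ≃ Ω) (hU : ∀ v A, U (act v A) = act (eU n v) (U A))
    (hL : ∀ v A, L (act v A) = act (eL n v) (L A)) (f : Ω → ℝ) (hf : ∑ A, f A ^ 2 = 1)
    (ε : ℝ) (hε : 0 ≤ ε)
    (h1 : ∑ A, (f (act (1, 0) A) - f A) ^ 2 ≤ ε ^ 2)
    (h2 : ∑ A, (f (act (0, 1) A) - f A) ^ 2 ≤ ε ^ 2)
    (h3 : ∑ A, (f (U A) - f A) ^ 2 ≤ ε ^ 2)
    (h4 : ∑ A, (f (L A) - f A) ^ 2 ≤ ε ^ 2) :
    ∑ A, (f A - av act f A) ^ 2 ≤ 5 * ε ^ 2 + 14 * ε := by
  rw [sum_sub_av act hact0 hactadd]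
  have hn0 : ∀ v : ZMod n × ZMod n, eU n (-v) = - eU n v := by
    intro v; simp only [eU, Equiv.coe_fn_mk]; ext <;> simp; ring
  have hn1 : ∀ v : ZMod n × ZMod n, eL n (-v) = - eL n v := by
    intro v; simp only [eL, Equiv.coe_fn_mk]; ext <;> simp; ring
  have g1 : ∑ ξ, (mag act f ((eL n).symm ξ) - mag act f ξ) ^ 2 ≤ ε ^ 2 := by
    refine (mag_almost act hact0 hactadd f U (eU n) hU (eL n).symm ?_ hn0).trans h3
    intro ξ v
    simp only [pr, eU, eL, Equiv.coe_fn_symm_mk, Equiv.coe_fn_mk]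
    ring
  have g2 : ∑ ξ, (mag act f ((eU n).symm ξ) - mag act f ξ) ^ 2 ≤ ε ^ 2 := by
    refine (mag_almost act hact0 hactadd f L (eL n) hL (eU n).symm ?_ hn1).trans h4
    intro ξ v
    simp only [pr, eU, eL, Equiv.coe_fn_symm_mk, Equiv.coe_fn_mk]
    ring
  have g1' : ∑ ξ, (mag act f (eL n ξ) - mag act f ξ) ^ 2 ≤ ε ^ 2 := by
    rw [← Equiv.sum_comp (eL n)] at g1
    simp only [Equiv.symm_apply_apply] at g1
    calc _ = ∑ ξ, (mag act f ξ - mag act f (eL n ξ)) ^ 2 := by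
          apply sum_congr rfl; intros; ring
      _ ≤ _ := g1
  have g2' : ∑ ξ, (mag act f (eU n ξ) - mag act f ξ) ^ 2 ≤ ε ^ 2 := by
    rw [← Equiv.sum_comp (eU n)] at g2
    simp only [Equiv.symm_apply_apply] at g2
    calc _ = ∑ ξ, (mag act f ξ - mag act f (eU n ξ)) ^ 2 := by
          apply sum_congr rfl; intros; ring
      _ ≤ _ := g2
  have hb1 : ∑ ξ, mag act f ξ ^ 2 = 1 := by rw [sum_mag act hact0 hactadd, hf]
  apply comb (mag act f) hb1 ε hε g2' g1'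
  -- far mass
  have m1 := mag_trans act hact0 hactadd f (1, 0)
  have m2 := mag_trans act hact0 hactadd f (0, 1)
  have c1 : ∀ ξ : ZMod n × ZMod n, ch ξ (1, 0) = ZMod.stdAddChar ξ.1 := by
    intro ξ; unfold ch pr; simp
  have c2 : ∀ ξ : ZMod n × ZMod n, ch ξ (0, 1) = ZMod.stdAddChar ξ.2 := by
    intro ξ; unfold ch pr; simp
  simp only [c1] at m1
  simp only [c2] at m2
  have k1 : 2 * ∑ ξ : ZMod n × ZMod n with ((n : ℤ) ≤ 4 * |ξ.1.valMinAbs|), mag act f ξ ^ 2 ≤ ε ^ 2 := by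
    rw [mul_sum]
    calc _ ≤ ∑ ξ : ZMod n × ZMod n with ((n : ℤ) ≤ 4 * |ξ.1.valMinAbs|),
          ‖(ZMod.stdAddChar ξ.1 : ℂ) - 1‖ ^ 2 * mag act f ξ ^ 2 := by
          apply sum_le_sum
          intro ξ hξ
          rw [mem_filter] at hξ
          exact mul_le_mul_of_nonneg_right (far_char ξ.1 hξ.2) (by positivity)
      _ ≤ ∑ ξ : ZMod n × ZMod n, ‖(ZMod.stdAddChar ξ.1 : ℂ) - 1‖ ^ 2 * mag act f ξ ^ 2 :=
          sum_le_sum_of_subset_of_nonneg (filter_subset _ _) (by intros; positivity)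
      _ ≤ ε ^ 2 := by rw [m1]; exact h1
  have k2 : 2 * ∑ ξ : ZMod n × ZMod n with ((n : ℤ) ≤ 4 * |ξ.2.valMinAbs|), mag act f ξ ^ 2 ≤ ε ^ 2 := by
    rw [mul_sum]
    calc _ ≤ ∑ ξ : ZMod n × ZMod n with ((n : ℤ) ≤ 4 * |ξ.2.valMinAbs|),
          ‖(ZMod.stdAddChar ξ.2 : ℂ) - 1‖ ^ 2 * mag act f ξ ^ 2 := by
          apply sum_le_sum
          intro ξ hξ
          rw [mem_filter] at hξ
          exact mul_le_mul_of_nonneg_right (far_char ξ.2 hξ.2) (by positivity)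
      _ ≤ ∑ ξ : ZMod n × ZMod n, ‖(ZMod.stdAddChar ξ.2 : ℂ) - 1‖ ^ 2 * mag act f ξ ^ 2 :=
          sum_le_sum_of_subset_of_nonneg (filter_subset _ _) (by intros; positivity)
      _ ≤ ε ^ 2 := by rw [m2]; exact h2
  have k3 := mass_or (mag act f) (fun ξ : ZMod n × ZMod n => (n : ℤ) ≤ 4 * |ξ.1.valMinAbs|)
    (fun ξ : ZMod n × ZMod n => (n : ℤ) ≤ 4 * |ξ.2.valMinAbs|) (fun ξ => ¬ Near ξ) (by
      intro ξ h
      by_contra h'
      push Not at h'
      exact h ⟨h'.1, h'.2⟩)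
  linarith

end Act

end Pool.Agent.TH862.EA
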