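import Pool.Agent.TH862.Schur
import Pool.Agent.TH862.FourT

set_option autoImplicit false

namespace Pool.Agent.TH862.EA

open Finset
open Classical

theorem fm_mul (σ ρ : Equiv.Perm XX) (A : Finset XX) : fm (σ * ρ) A = fm σ (fm ρ A) := by
  ext x
  rw [mem_fm, mem_fm, mem_fm]
  rfl

theorem fm_congr (B : Finset Blk) (s t : ∀ b, YY b) (h : ∀ b ∈ B, s b = t b) (A : Finset XX)
    (hA : A ∈ OB B) : fm (blkT s) A = fm (blkT t) A := by
  ext ⟨b, y⟩
  rw [mem_fm_blkT, mem_fm_blkT]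
  by_cases hb : b ∈ B
  · rw [h b hb]
  · constructor
    · intro h1
      exact absurd ((mem_OB B A).mp hA _ h1) hb
    · intro h1
      exact absurd ((mem_OB B A).mp hA _ h1) hb

section N

variable (n : ℕ) [NeZero n]

/-- reduction mod `pp b` -/
noncomputable def cc (b : Blk) : ZMod n →+ ZMod (pp b) :=
  if h : pp b ∣ n then (ZMod.castHom h (ZMod (pp b))).toAddMonoidHom else 0

theorem cc_natCast (b : Blk) (h : pp b ∣ n) (k : ℕ) : cc n b (k : ZMod n) = (k : ZMod (pp b)) := by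
  unfold cc
  rw [dif_pos h]
  show (ZMod.castHom h (ZMod (pp b))) (k : ZMod n) = _
  rw [map_natCast]

/-- the family of translations attached to `v` -/
noncomputable def tv (v : ZMod n × ZMod n) : ∀ b, YY b := fun b => (cc n b v.1, cc n b v.2)

theorem blkT_tv_zero : blkT (tv n 0) = 1 := by
  ext1 ⟨b, y⟩
  rw [blkT_apply]
  unfold tv
  simp

theorem blkT_tv_add (v w : ZMod n × ZMod n) : blkT (tv n (v + w)) = blkT (tv n v) * blkT (tv n w) := by
  ext1 ⟨b, y⟩
  rw [Equiv.Perm.mul_apply, blkT_apply, blkT_apply, blkT_apply]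
  congr 1
  unfold tv
  simp only [Prod.fst_add, Prod.snd_add, map_add]
  ext
  · simp only [Prod.fst_add]; ring
  · simp only [Prod.snd_add]; ring

theorem pU_tv (v : ZMod n × ZMod n) : pU * blkT (tv n v) = blkT (tv n (eU n v)) * pU := by
  ext1 ⟨b, y⟩
  rw [Equiv.Perm.mul_apply, Equiv.Perm.mul_apply, blkT_apply]
  show (⟨b, eU (pp b) (y + tv n v b)⟩ : XX) = blkT (tv n (eU n v)) ⟨b, eU (pp b) y⟩
  rw [blkT_apply]
  congr 1
  unfold tv eU
  simp only [Equiv.coe_fn_mk, map_add]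
  ext
  · simp only [Prod.fst_add, Prod.snd_add]; ring
  · simp only [Prod.snd_add]

theorem pL_tv (v : ZMod n × ZMod n) : pL * blkT (tv n v) = blkT (tv n (eL n v)) * pL := by
  ext1 ⟨b, y⟩
  rw [Equiv.Perm.mul_apply, Equiv.Perm.mul_apply, blkT_apply]
  show (⟨b, eL (pp b) (y + tv n v b)⟩ : XX) = blkT (tv n (eL n v)) ⟨b, eL (pp b) y⟩
  rw [blkT_apply]
  congr 1
  unfold tv eL
  simp only [Equiv.coe_fn_mk, map_add]
  ext
  · simp only [Prod.fst_add]
  · simp only [Prod.fst_add, Prod.snd_add]; ring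

end N

/-- the modulus of a finite set of blocks -/
noncomputable def nB (B : Finset Blk) : ℕ := ∏ b ∈ B, pp b

instance (B : Finset Blk) : NeZero (nB B) := ⟨by
  unfold nB
  exact prod_ne_zero_iff.mpr fun b _ => (pp_pos b).ne'⟩

theorem pp_dvd_nB (B : Finset Blk) (b : Blk) (hb : b ∈ B) : pp b ∣ nB B := dvd_prod_of_mem _ hb

/-- Chinese remainder -/
theorem crt (B : Finset Blk) (b : Blk) (hb : b ∈ B) (t : YY b) :
    ∃ v : ZMod (nB B) × ZMod (nB B), ∀ b' ∈ B, tv (nB B) v b' = (Pi.single b t : ∀ b, YY b) b' := by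
  have hcop : Nat.Coprime (pp b) (∏ b' ∈ B.erase b, pp b') := by
    apply Nat.Coprime.prod_right
    intro b' hb'
    exact pp_coprime b b' (ne_of_mem_erase hb').symm
  have key : ∀ a : ZMod (pp b), ∃ k : ℕ, (k : ZMod (pp b)) = a ∧ ∀ b' ∈ B, b' ≠ b → (k : ZMod (pp b')) = 0 := by
    intro a
    obtain ⟨k, hk1, hk2⟩ := Nat.chineseRemainder hcop a.val 0
    refine ⟨k, ?_, ?_⟩
    · rw [(ZMod.natCast_eq_natCast_iff _ _ _).mpr hk1, ZMod.natCast_zmod_val]
    · intro b' hb' hne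
      rw [ZMod.natCast_eq_zero_iff]
      exact (dvd_prod_of_mem _ (mem_erase.mpr ⟨hne, hb'⟩)).trans ((Nat.modEq_zero_iff_dvd).mp hk2)
  obtain ⟨k1, hk1, hk1'⟩ := key t.1
  obtain ⟨k2, hk2, hk2'⟩ := key t.2
  refine ⟨((k1 : ZMod (nB B)), (k2 : ZMod (nB B))), ?_⟩
  intro b' hb'
  unfold tv
  simp only
  rw [cc_natCast _ b' (pp_dvd_nB B b' hb'), cc_natCast _ b' (pp_dvd_nB B b' hb')]
  by_cases h : b' = b
  · subst h
    rw [hk1, hk2, Pi.single_eq_same]
  · rw [hk1' b' hb' h, hk2' b' hb' h, Pi.single_eq_of_ne h]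
    rfl

section Main

variable (B : Finset Blk)

/-- action on subsets of `XB B` -/
noncomputable def actB (v : ZMod (nB B) × ZMod (nB B)) (A : OB B) : OB B :=
  ⟨fm (blkT (tv (nB B) v)) A.1, (fm_mem_OB B _ (fun _ => rfl) A.1).mp A.2⟩

theorem actB_zero (A : OB B) : actB B 0 A = A := by
  apply Subtype.ext
  show fm (blkT (tv (nB B) 0)) A.1 = A.1
  rw [blkT_tv_zero]
  ext x
  rw [mem_fm]; rfl

theorem actB_add (v w : ZMod (nB B) × ZMod (nB B)) (A : OB B) : actB B (v + w) A = actB B v (actB B w A) := by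
  apply Subtype.ext
  show fm (blkT (tv (nB B) (v + w))) A.1 = fm (blkT (tv (nB B) v)) (fm (blkT (tv (nB B) w)) A.1)
  rw [blkT_tv_add, fm_mul]

noncomputable def UB : OB B ≃ OB B := (fm pU).subtypeEquiv (fm_mem_OB B pU (fun _ => rfl))
noncomputable def LB : OB B ≃ OB B := (fm pL).subtypeEquiv (fm_mem_OB B pL (fun _ => rfl))

theorem UB_act (v : ZMod (nB B) × ZMod (nB B)) (A : OB B) : UB B (actB B v A) = actB B (eU (nB B) v) (UB B A) := by
  apply Subtype.ext
  show fm pU (fm (blkT (tv (nB B) v)) A.1) = fm (blkT (tv (nB B) (eU (nB B) v))) (fm pU A.1)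
  rw [← fm_mul, ← fm_mul, pU_tv]

theorem LB_act (v : ZMod (nB B) × ZMod (nB B)) (A : OB B) : LB B (actB B v A) = actB B (eL (nB B) v) (LB B A) := by
  apply Subtype.ext
  show fm pL (fm (blkT (tv (nB B) v)) A.1) = fm (blkT (tv (nB B) (eL (nB B) v))) (fm pL A.1)
  rw [← fm_mul, ← fm_mul, pL_tv]

/-- average over the translations -/
noncomputable def hav (f : Finset XX → ℝ) (A : Finset XX) : ℝ :=
  (∑ v : ZMod (nB B) × ZMod (nB B), f (fm (blkT (tv (nB B) v)) A)) / (nB B : ℝ) ^ 2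

theorem hav_eq (f : Finset XX → ℝ) (A : OB B) :
    hav B f A.1 = av (actB B) (fun A : OB B => f A.1) A := rfl

theorem hav_act (f : Finset XX → ℝ) (w : ZMod (nB B) × ZMod (nB B)) (A : Finset XX) :
    hav B f (fm (blkT (tv (nB B) w)) A) = hav B f A := by
  unfold hav
  congr 1
  rw [← Equiv.sum_comp (Equiv.addRight w) (fun v => f (fm (blkT (tv (nB B) v)) A))]
  apply sum_congr rfl; intro v _
  simp only [Equiv.coe_addRight]
  rw [blkT_tv_add, fm_mul]

theorem hav_supp (f : Finset XX → ℝ) (hf : ∀ A, A ∉ OB B → f A = 0) (A : Finset XX) (hA : A ∉ OB B) :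
    hav B f A = 0 := by
  unfold hav
  have : ∑ v : ZMod (nB B) × ZMod (nB B), f (fm (blkT (tv (nB B) v)) A) = 0 := by
    apply sum_eq_zero
    intro v _
    apply hf
    intro h
    exact hA ((fm_mem_OB B _ (fun _ => rfl) A).mpr h)
  rw [this, zero_div]

theorem pT1_eq : pT1 = blkT (fun _ => (1, 0)) := rfl
theorem pT2_eq : pT2 = blkT (fun _ => (0, 1)) := rfl

theorem relT_B (f : Finset XX → ℝ) (hf1 : ∑ A ∈ OB B, f A ^ 2 = 1) (ε : ℝ) (hε : 0 ≤ ε)
    (h1 : ∑ A ∈ OB B, (f (fm pT1 A) - f A) ^ 2 ≤ ε ^ 2)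
    (h2 : ∑ A ∈ OB B, (f (fm pT2 A) - f A) ^ 2 ≤ ε ^ 2)
    (h3 : ∑ A ∈ OB B, (f (fm pU A) - f A) ^ 2 ≤ ε ^ 2)
    (h4 : ∑ A ∈ OB B, (f (fm pL A) - f A) ^ 2 ≤ ε ^ 2) :
    ∑ A ∈ OB B, (f A - hav B f A) ^ 2 ≤ 5 * ε ^ 2 + 14 * ε := by
  have key := relT (actB B) (actB_zero B) (actB_add B) (UB B) (LB B) (UB_act B) (LB_act B)
    (fun A : OB B => f A.1) (by rw [← hf1]; exact Finset.sum_coe_sort (OB B) (fun A => f A ^ 2))
    ε hε ?_ ?_ ?_ ?_
  · refine le_trans (le_of_eq ?_) key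
    rw [← Finset.sum_coe_sort (OB B)]
    rfl
  · refine le_trans (le_of_eq ?_) h1
    rw [← Finset.sum_coe_sort (OB B)]
    apply sum_congr rfl
    intro A _
    have : fm pT1 A.1 = (actB B (1, 0) A).1 := by
      rw [pT1_eq]
      apply fm_congr B _ _ _ A.1 A.2
      intro b hb
      unfold tv
      simp only
      have h5 := cc_natCast (nB B) b (pp_dvd_nB B b hb) 1
      rw [Nat.cast_one, Nat.cast_one] at h5
      rw [h5, map_zero]
    rw [this]
  · refine le_trans (le_of_eq ?_) h2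
    rw [← Finset.sum_coe_sort (OB B)]
    apply sum_congr rfl
    intro A _
    have : fm pT2 A.1 = (actB B (0, 1) A).1 := by
      rw [pT2_eq]
      apply fm_congr B _ _ _ A.1 A.2
      intro b hb
      unfold tv
      simp only
      have h5 := cc_natCast (nB B) b (pp_dvd_nB B b hb) 1
      rw [Nat.cast_one, Nat.cast_one] at h5
      rw [h5, map_zero]
    rw [this]
  · refine le_trans (le_of_eq ?_) h3
    rw [← Finset.sum_coe_sort (OB B)]
    rfl
  · refine le_trans (le_of_eq ?_) h4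
    rw [← Finset.sum_coe_sort (OB B)]
    rfl

/-- average over the lamp at the root as well -/
noncomputable def gav (f : Finset XX → ℝ) (A : Finset XX) : ℝ := (hav B f A + hav B f (del A)) / 2

theorem del_del (A : Finset XX) : del (del A) = A := by
  show symmDiff (symmDiff A {x0}) {x0} = A
  rw [symmDiff_assoc, symmDiff_self]
  exact symmDiff_bot A

variable {B}

theorem del_mem (hB : rootB ∈ B) (A : Finset XX) : A ∈ OB B ↔ del A ∈ OB B := by
  have h1 : ∀ A, A ∈ OB B → del A ∈ OB B := by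
    intro A hA
    rw [mem_OB] at hA ⊢
    intro x hx
    rw [mem_del] at hx
    rcases hx with ⟨h, _⟩ | ⟨h, _⟩
    · exact hA x h
    · rw [h]; exact hB
  refine ⟨h1 A, fun h => ?_⟩
  have h2 := h1 _ h
  rw [del_del] at h2
  exact h2

theorem del_fm_comm (t : ∀ b, YY b) (A : Finset XX) : del (fm (blkT t) A) = fm (blkT t) (del A) := by
  ext x
  have h1 : (blkT t).symm x = x0 ↔ x = x0 := by
    rw [Equiv.symm_apply_eq]
    have : blkT t x0 = x0 := by
      unfold x0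
      rw [blkT_apply]
      congr 1
      rw [yy_root (t rootB), add_zero]
    rw [this]
  rw [mem_del, mem_fm, mem_fm, mem_del, ne_eq, ne_eq, h1]

theorem gav_inv (hB : rootB ∈ B) (f : Finset XX → ℝ) : Inv B (gav B f) := by
  constructor
  · intro b hb t A hA
    obtain ⟨v, hv⟩ := crt B b hb t
    have h1 : fm (blkT (Pi.single b t)) A = fm (blkT (tv (nB B) v)) A :=
      fm_congr B _ _ (fun b' hb' => (hv b' hb').symm) A hA
    unfold gav
    rw [h1, hav_act, del_fm_comm, hav_act]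
  · intro A _
    unfold gav
    rw [del_del, add_comm]

theorem gav_supp (hB : rootB ∈ B) (f : Finset XX → ℝ) (hf : ∀ A, A ∉ OB B → f A = 0) (A : Finset XX)
    (hA : A ∉ OB B) : gav B f A = 0 := by
  unfold gav
  rw [hav_supp B f hf A hA, hav_supp B f hf (del A) (fun h => hA ((del_mem hB A).mpr h))]
  norm_num

theorem hav_contr (f : Finset XX → ℝ) : ∑ A ∈ OB B, hav B f A ^ 2 ≤ ∑ A ∈ OB B, f A ^ 2 := by
  have hn : (0 : ℝ) < nB B := by exact_mod_cast Nat.pos_of_ne_zero (NeZero.ne (nB B))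
  have h1 : ∀ A ∈ OB B, hav B f A ^ 2 ≤ (∑ v : ZMod (nB B) × ZMod (nB B), f (fm (blkT (tv (nB B) v)) A) ^ 2) / (nB B : ℝ) ^ 2 := by
    intro A _
    unfold hav
    rw [div_pow, div_le_div_iff₀ (by positivity) (by positivity)]
    have h2 := sq_sum_le_card_mul_sum_sq (s := (univ : Finset (ZMod (nB B) × ZMod (nB B))))
      (f := fun v => f (fm (blkT (tv (nB B) v)) A))
    rw [card_univ, Fintype.card_prod, ZMod.card] at h2
    push_cast at h2
    have h3 : (0 : ℝ) ≤ (nB B : ℝ) ^ 2 := by positivity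
    nlinarith [mul_le_mul_of_nonneg_right h2 h3]
  calc ∑ A ∈ OB B, hav B f A ^ 2
      ≤ ∑ A ∈ OB B, (∑ v : ZMod (nB B) × ZMod (nB B), f (fm (blkT (tv (nB B) v)) A) ^ 2) / (nB B : ℝ) ^ 2 :=
        sum_le_sum h1
    _ = (∑ v : ZMod (nB B) × ZMod (nB B), ∑ A ∈ OB B, f (fm (blkT (tv (nB B) v)) A) ^ 2) / (nB B : ℝ) ^ 2 := by
        rw [← sum_div, sum_comm]
    _ = (∑ v : ZMod (nB B) × ZMod (nB B), ∑ A ∈ OB B, f A ^ 2) / (nB B : ℝ) ^ 2 := by
        congr 1
        apply sum_congr rfl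
        intro v _
        exact sum_OB_comp B (fm (blkT (tv (nB B) v))) (fm_mem_OB B _ (fun _ => rfl)) (fun A => f A ^ 2)
    _ = ∑ A ∈ OB B, f A ^ 2 := by
        rw [sum_const, card_univ, Fintype.card_prod, ZMod.card, nsmul_eq_mul]
        push_cast
        field_simp

/-- the lamp average is a contraction -/
theorem del_contr (hB : rootB ∈ B) (k : Finset XX → ℝ) :
    ∑ A ∈ OB B, ((k A + k (del A)) / 2) ^ 2 ≤ ∑ A ∈ OB B, k A ^ 2 := by
  calc ∑ A ∈ OB B, ((k A + k (del A)) / 2) ^ 2 ≤ ∑ A ∈ OB B, (1 / 2 * k A ^ 2 + 1 / 2 * k (del A) ^ 2) := by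
        apply sum_le_sum
        intro A _
        nlinarith [sq_nonneg (k A - k (del A))]
    _ = ∑ A ∈ OB B, k A ^ 2 := by
        rw [sum_add_distrib, ← mul_sum, ← mul_sum,
          sum_OB_comp B del (del_mem hB) (fun A => k A ^ 2)]
        ring

/-- The key non-amenability statement -/
theorem no_almost_inv (hB : rootB ∈ B) (f : Finset XX → ℝ) (hsupp : ∀ A, A ∉ OB B → f A = 0)
    (hf1 : ∑ A ∈ OB B, f A ^ 2 = 1) (ε : ℝ) (hε0 : 0 < ε) (hε : ε ≤ (1 - rho) ^ 2 / 1000)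
    (h1 : ∑ A ∈ OB B, (f (fm pT1 A) - f A) ^ 2 ≤ ε ^ 2)
    (h2 : ∑ A ∈ OB B, (f (fm pT2 A) - f A) ^ 2 ≤ ε ^ 2)
    (h3 : ∑ A ∈ OB B, (f (fm pU A) - f A) ^ 2 ≤ ε ^ 2)
    (h4 : ∑ A ∈ OB B, (f (fm pL A) - f A) ^ 2 ≤ ε ^ 2)
    (h5 : ∑ A ∈ OB B, (f (fm tau A) - f A) ^ 2 ≤ ε ^ 2)
    (h6 : ∑ A ∈ OB B, (f (del A) - f A) ^ 2 ≤ ε ^ 2) : False := by
  have hr1 := rho_lt_one
  have hr0 := rho_pos
  set γ := 1 - rho with hγ
  have hγ0 : 0 < γ := by linarith
  have hγ1 : γ < 1 := by linarith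
  have hε1 : ε ≤ 1 / 1000 := by nlinarith
  set g := gav B f with hg
  -- distance of f and g
  have e1 := relT_B B f hf1 ε hε0.le h1 h2 h3 h4
  set η := ∑ A ∈ OB B, (f A - g A) ^ 2 with hη
  have e2 : η ≤ 39 * ε := by
    have e3 : η ≤ ∑ A ∈ OB B, (1 / 2 * (f (del A) - f A) ^ 2
        + 2 * (((f A - hav B f A) + (f (del A) - hav B f (del A))) / 2) ^ 2) := by
      apply sum_le_sum
      intro A _
      rw [hg]
      unfold gav
      have e4 : f A - (hav B f A + hav B f (del A)) / 2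
          = -(f (del A) - f A) / 2 + ((f A - hav B f A) + (f (del A) - hav B f (del A))) / 2 := by ring
      rw [e4]
      set p := f (del A) - f A
      set q := ((f A - hav B f A) + (f (del A) - hav B f (del A))) / 2
      nlinarith [sq_nonneg (-p / 2 - q)]
    rw [sum_add_distrib, ← mul_sum, ← mul_sum] at e3
    have e5 := del_contr hB (fun A => f A - hav B f A)
    nlinarith
  have eg : ∑ A ∈ OB B, g A ^ 2 ≤ 1 := by
    calc ∑ A ∈ OB B, g A ^ 2 ≤ ∑ A ∈ OB B, hav B f A ^ 2 := del_contr hB (hav B f)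
      _ ≤ ∑ A ∈ OB B, f A ^ 2 := hav_contr f
      _ = 1 := hf1
  have gsupp : ∀ A, A ∉ OB B → g A = 0 := gav_supp hB f hsupp
  have eQg : ∑ A ∈ OB B, g (fm tau A) * g A ≤ rho := by
    have e6 := schur B hB g (gav_inv hB f) gsupp
    nlinarith
  -- lower bound for Q(f)
  have eQf : 1 - ε ≤ ∑ A ∈ OB B, f (fm tau A) * f A := by
    have e7 : ∀ A ∈ OB B, (1 - ε / 2) * f A ^ 2 - (f (fm tau A) - f A) ^ 2 / (2 * ε) ≤ f (fm tau A) * f A := by
      intro A _
      set p := f (fm tau A) - f A with hp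
      have e8 : f (fm tau A) = f A + p := by rw [hp]; ring
      rw [e8]
      have e9 : 0 ≤ (ε * f A + p) ^ 2 / (2 * ε) := by positivity
      have e10 : (ε * f A + p) ^ 2 / (2 * ε) = ε / 2 * f A ^ 2 + f A * p + p ^ 2 / (2 * ε) := by
        field_simp
        ring
      nlinarith
    have e11 := sum_le_sum e7
    rw [sum_sub_distrib, ← mul_sum, ← sum_div, hf1] at e11
    have e12 : (∑ A ∈ OB B, (f (fm tau A) - f A) ^ 2) / (2 * ε) ≤ ε / 2 := by
      rw [div_le_iff₀ (by positivity)]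
      nlinarith
    linarith
  -- comparison
  set lam := γ / 4 with hlam
  have hlam0 : 0 < lam := by positivity
  have e13 : ∀ A ∈ OB B, f (fm tau A) * f A ≤ g (fm tau A) * g A
      + (1 / (2 * lam) * (f (fm tau A) - g (fm tau A)) ^ 2 + lam / 2 * f A ^ 2)
      + (lam / 2 * g (fm tau A) ^ 2 + 1 / (2 * lam) * (f A - g A) ^ 2) := by
    intro A _
    have a1 : 0 ≤ 1 / (2 * lam) * ((f (fm tau A) - g (fm tau A)) - lam * f A) ^ 2 := by positivity
    have a2 : 0 ≤ 1 / (2 * lam) * ((f A - g A) - lam * g (fm tau A)) ^ 2 := by positivity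
    have a3 : 1 / (2 * lam) * ((f (fm tau A) - g (fm tau A)) - lam * f A) ^ 2
        = 1 / (2 * lam) * (f (fm tau A) - g (fm tau A)) ^ 2 + lam / 2 * f A ^ 2
          - (f (fm tau A) - g (fm tau A)) * f A := by
      field_simp
      ring
    have a4 : 1 / (2 * lam) * ((f A - g A) - lam * g (fm tau A)) ^ 2
        = 1 / (2 * lam) * (f A - g A) ^ 2 + lam / 2 * g (fm tau A) ^ 2
          - (f A - g A) * g (fm tau A) := by
      field_simp
      ring
    nlinarith
  have e14 := sum_le_sum e13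
  simp only [sum_add_distrib, ← mul_sum] at e14
  have e15 : ∑ A ∈ OB B, (f (fm tau A) - g (fm tau A)) ^ 2 ≤ η :=
    sum_comp_le B (fm tau) (fun A => (f A - g A) ^ 2) (fun A => sq_nonneg _) (by
      intro A hA
      rw [hsupp A hA, gsupp A hA]
      norm_num)
  have e16 : ∑ A ∈ OB B, g (fm tau A) ^ 2 ≤ 1 :=
    (sum_comp_le B (fm tau) (fun A => g A ^ 2) (fun A => sq_nonneg _) (by
      intro A hA
      rw [gsupp A hA]
      norm_num)).trans eg
  have e17 : 1 / (2 * lam) * ∑ A ∈ OB B, (f (fm tau A) - g (fm tau A)) ^ 2 ≤ 1 / (2 * lam) * η :=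
    mul_le_mul_of_nonneg_left e15 (by positivity)
  have e18 : lam / 2 * ∑ A ∈ OB B, g (fm tau A) ^ 2 ≤ lam / 2 * 1 :=
    mul_le_mul_of_nonneg_left e16 (by positivity)
  have e19 : 1 / (2 * lam) * η ≤ 39 * ε / (2 * lam) := by
    rw [one_div_mul_eq_div]
    exact div_le_div_of_nonneg_right e2 (by positivity)
  have e20 : 39 * ε / (2 * lam) ≤ 78 * γ / 1000 := by
    rw [hlam, div_le_div_iff₀ (by positivity) (by norm_num)]
    nlinarith
  rw [hf1] at e14
  nlinarith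

end Main

end Pool.Agent.TH862.EA
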