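import Mathlib

set_option autoImplicit false

open Classical

namespace Pool.Agent.TH862.EA

section FA

variable {D : Type} (m : Set D → ℝ) (h0 : ∀ A, 0 ≤ m A) (h1 : m Set.univ = 1)
  (hadd : ∀ A B, Disjoint A B → m (A ∪ B) = m A + m B)

include hadd

theorem fa_empty : m ∅ = 0 := by
  have h := hadd ∅ ∅ (Set.disjoint_empty _)
  rw [Set.union_empty] at h
  linarith

theorem fa_sum {Z : Type} (Φ : D → Z) (T : Finset Z) :
    m {A | Φ A ∈ T} = ∑ z ∈ T, m {A | Φ A = z} := by
  induction T using Finset.induction_on with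
  | empty =>
    simp only [Finset.notMem_empty, Finset.sum_empty]
    have : {A : D | False} = ∅ := by ext; simp
    rw [this]
    exact fa_empty m hadd
  | insert z T hz ih =>
    rw [Finset.sum_insert hz, ← ih]
    have : {A | Φ A ∈ insert z T} = {A | Φ A = z} ∪ {A | Φ A ∈ T} := by
      ext A; simp
    rw [this]
    apply hadd
    rw [Set.disjoint_left]
    intro A hA hA'
    simp only [Set.mem_ofPred_eq] at hA hA'
    rw [hA] at hA'
    exact hz hA'

theorem fa_int {Z : Type} (Φ : D → Z) (T : Finset Z) (hT : ∀ A, Φ A ∈ T) (h : Z → ℤ) (I : Finset ℤ)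
    (hI : ∀ z ∈ T, h z ∈ I) :
    ∑ z ∈ T, (h z : ℝ) * m {A | Φ A = z} = ∑ k ∈ I, (k : ℝ) * m {A | h (Φ A) = k} := by
  rw [← Finset.sum_fiberwise_of_maps_to hI]
  apply Finset.sum_congr rfl
  intro k hk
  have h2 : ∑ z ∈ T with h z = k, (h z : ℝ) * m {A | Φ A = z}
      = ∑ z ∈ T with h z = k, (k : ℝ) * m {A | Φ A = z} := by
    apply Finset.sum_congr rfl
    intro z hz
    rw [(Finset.mem_filter.mp hz).2]
  rw [h2, ← Finset.mul_sum]
  congr 1
  rw [← fa_sum m hadd Φ]
  congr 1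
  ext A
  simp only [Finset.mem_filter, Set.mem_ofPred_eq]
  constructor
  · intro h; exact h.2
  · intro h; exact ⟨hT A, h⟩

include h0 h1

theorem no_drift {ι : Type} [Fintype ι] (σ : ι → Equiv.Perm D)
    (hinv : ∀ i A, m ((σ i) ⁻¹' A) = m A) (F : ι → D → ℝ) (C : ℝ) (hC : ∀ i A, |F i A| ≤ C)
    (u : ℝ) (hu : 0 < u) (h : ∀ A, u ≤ ∑ i, (F i (σ i A) - F i A)) : False := by
  set N : ℝ := ((Fintype.card ι : ℕ) : ℝ) with hN
  have hN0 : 0 ≤ N := by positivity
  set η : ℝ := u / (N + 2) with hη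
  have hη0 : 0 < η := by positivity
  set H : ι → D → ℤ := fun i A => ⌊F i A / η⌋ with hH
  obtain ⟨K, hK⟩ : ∃ K : ℤ, ∀ i A, H i A ∈ Finset.Icc (-K) K := by
    refine ⟨⌈C / η⌉ + 1, fun i A => ?_⟩
    rw [Finset.mem_Icc]
    have hc := hC i A
    rw [abs_le] at hc
    constructor
    · rw [hH]
      simp only
      rw [Int.le_floor]
      push_cast
      have h3 : C / η ≤ ⌈C / η⌉ := Int.le_ceil _
      have h4 : -(C / η) ≤ F i A / η := by
        rw [← neg_div]
        exact div_le_div_of_nonneg_right hc.1 hη0.le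
      linarith
    · have h3 : (H i A : ℝ) ≤ F i A / η := Int.floor_le _
      have h4 : F i A / η ≤ C / η := div_le_div_of_nonneg_right hc.2 hη0.le
      have h5 : C / η ≤ ⌈C / η⌉ := Int.le_ceil _
      have h6 : (H i A : ℝ) ≤ ((⌈C / η⌉ + 1 : ℤ) : ℝ) := by push_cast; linarith
      exact_mod_cast h6
  set Φ : D → (ι → ℤ × ℤ) := fun A i => (H i (σ i A), H i A) with hΦ
  set T : Finset (ι → ℤ × ℤ) := Fintype.piFinset (fun _ => Finset.Icc (-K) K ×ˢ Finset.Icc (-K) K) with hTdef
  have hT : ∀ A, Φ A ∈ T := by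
    intro A
    rw [hTdef, Fintype.mem_piFinset]
    intro i
    rw [Finset.mem_product]
    exact ⟨hK i _, hK i _⟩
  have key1 : ∀ i : ι, ∑ z ∈ T, (((z i).1 : ℤ) : ℝ) * m {A | Φ A = z}
      = ∑ z ∈ T, (((z i).2 : ℤ) : ℝ) * m {A | Φ A = z} := by
    intro i
    rw [fa_int m hadd Φ T hT (fun z => (z i).1) (Finset.Icc (-K) K) (by
      intro z hz
      rw [hTdef, Fintype.mem_piFinset] at hz
      exact (Finset.mem_product.mp (hz i)).1),
      fa_int m hadd Φ T hT (fun z => (z i).2) (Finset.Icc (-K) K) (by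
      intro z hz
      rw [hTdef, Fintype.mem_piFinset] at hz
      exact (Finset.mem_product.mp (hz i)).2)]
    apply Finset.sum_congr rfl
    intro k hk
    congr 1
    exact hinv i {A | H i A = k}
  have key2 : ∀ z ∈ T, m {A | Φ A = z} ≤ (∑ i, (((z i).1 : ℝ) - ((z i).2 : ℝ))) * m {A | Φ A = z} := by
    intro z hz
    rcases Set.eq_empty_or_nonempty {A | Φ A = z} with he | ⟨A, hA⟩
    · rw [he, fa_empty m hadd]; simp
    · have h3 : (1 : ℝ) ≤ ∑ i, (((z i).1 : ℝ) - ((z i).2 : ℝ)) := by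
        have hA' : Φ A = z := hA
        rw [← hA']
        simp only [hΦ]
        have h5 : ∀ i, F i (σ i A) / η - 1 - F i A / η ≤ (H i (σ i A) : ℝ) - (H i A : ℝ) := by
          intro i
          have h6 : F i (σ i A) / η - 1 < (H i (σ i A) : ℝ) := Int.sub_one_lt_floor _
          have h7 : (H i A : ℝ) ≤ F i A / η := Int.floor_le _
          linarith
        have h8 : ∑ i, (F i (σ i A) / η - 1 - F i A / η) ≤ ∑ i, ((H i (σ i A) : ℝ) - (H i A : ℝ)) :=
          Finset.sum_le_sum fun i _ => h5 i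
        have h9 : ∑ i, (F i (σ i A) / η - 1 - F i A / η) = (∑ i, (F i (σ i A) - F i A)) / η - N := by
          rw [Finset.sum_div]
          have : N = ∑ i : ι, (1 : ℝ) := by simp [hN]
          rw [this, ← Finset.sum_sub_distrib]
          apply Finset.sum_congr rfl
          intro i _
          ring
        have h10 : u / η ≤ (∑ i, (F i (σ i A) - F i A)) / η := div_le_div_of_nonneg_right (h A) hη0.le
        have h11 : u / η = N + 2 := by
          rw [hη]; field_simp
        linarith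
      have h4 := h0 {A | Φ A = z}
      nlinarith
  have key3 : ∑ z ∈ T, m {A | Φ A = z} = 1 := by
    rw [← fa_sum m hadd Φ T]
    have : {A | Φ A ∈ T} = Set.univ := by
      ext A; simp [hT A]
    rw [this, h1]
  have key4 : ∑ z ∈ T, (∑ i, (((z i).1 : ℝ) - ((z i).2 : ℝ))) * m {A | Φ A = z} = 0 := by
    have : ∑ z ∈ T, (∑ i, (((z i).1 : ℝ) - ((z i).2 : ℝ))) * m {A | Φ A = z}
        = ∑ i, ∑ z ∈ T, ((((z i).1 : ℝ) * m {A | Φ A = z}) - ((z i).2 : ℝ) * m {A | Φ A = z}) := by
      rw [Finset.sum_comm]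
      apply Finset.sum_congr rfl
      intro z _
      rw [Finset.sum_mul]
      apply Finset.sum_congr rfl
      intro i _
      ring
    rw [this]
    apply Finset.sum_eq_zero
    intro i _
    rw [Finset.sum_sub_distrib, key1 i, sub_self]
  have key5 := Finset.sum_le_sum key2
  rw [key3, key4] at key5
  linarith

end FA

section HB

variable {D : Type} {ι : Type} [Fintype ι] (σ : ι → Equiv.Perm D)

/-- the difference vector -/
noncomputable def dv (A : D) : ι → lp (fun _ : D => ℝ) 1 :=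
  fun i => lp.single 1 (σ i A) (1 : ℝ) - lp.single 1 A (1 : ℝ)

noncomputable def dΦ : (D →₀ ℝ) →ₗ[ℝ] (ι → lp (fun _ : D => ℝ) 1) :=
  Finsupp.linearCombination ℝ (dv σ)

theorem dΦ_apply (p : D →₀ ℝ) (i : ι) (A : D) :
    (dΦ σ p i : D → ℝ) A = p ((σ i).symm A) - p A := by
  induction p using Finsupp.induction_linear with
  | zero => simp
  | add f g hf hg =>
    rw [map_add, Pi.add_apply, lp.coeFn_add, Pi.add_apply, hf, hg]
    simp only [Finsupp.coe_add, Pi.add_apply]
    ring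
  | single a b =>
    rw [dΦ, Finsupp.linearCombination_single, Pi.smul_apply, lp.coeFn_smul, Pi.smul_apply, dv,
      lp.coeFn_sub, Pi.sub_apply, lp.single_apply, lp.single_apply]
    simp only [Finsupp.single_apply, Pi.single_apply, smul_eq_mul]
    have : (A = σ i a) ↔ (a = (σ i).symm A) := by
      rw [Equiv.eq_symm_apply]; exact eq_comm
    simp only [this, eq_comm (a := A) (b := a)]
    split_ifs <;> ring

def probs (D : Type) : Set (D →₀ ℝ) := {p | (∀ A, 0 ≤ p A) ∧ p.sum (fun _ x => x) = 1}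

theorem convex_probs : Convex ℝ (probs D) := by
  intro p hp q hq a b ha hb hab
  refine ⟨fun A => ?_, ?_⟩
  · have := hp.1 A
    have := hq.1 A
    simp only [Finsupp.coe_add, Finsupp.coe_smul, Pi.add_apply, Pi.smul_apply, smul_eq_mul]
    positivity
  · rw [Finsupp.sum_add_index' (fun _ => rfl) (fun _ _ _ => rfl),
      Finsupp.sum_smul_index' (fun _ => rfl), Finsupp.sum_smul_index' (fun _ => rfl)]
    have h1 : (p.sum fun _ x => a • x) = a * (p.sum fun _ x => x) := by
      rw [Finsupp.sum, Finsupp.sum, Finset.mul_sum]; rfl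
    have h2 : (q.sum fun _ x => b • x) = b * (q.sum fun _ x => x) := by
      rw [Finsupp.sum, Finsupp.sum, Finset.mul_sum]; rfl
    rw [h1, h2, hp.2, hq.2]
    linarith

/-- Day's trick: an invariant mean gives almost invariant finitely supported probabilities. -/
theorem exists_almost_inv (m : Set D → ℝ) (h0 : ∀ A, 0 ≤ m A) (h1 : m Set.univ = 1)
    (hadd : ∀ A B, Disjoint A B → m (A ∪ B) = m A + m B)
    (hinv : ∀ i A, m ((σ i) ⁻¹' A) = m A) (ε : ℝ) (hε : 0 < ε) :
    ∃ p : D →₀ ℝ, (∀ A, 0 ≤ p A) ∧ p.sum (fun _ x => x) = 1 ∧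
      ∀ i, ∀ Λ : Finset D, ∑ A ∈ Λ, |p (σ i A) - p A| ≤ ε := by
  by_cases hcl : (0 : ι → lp (fun _ : D => ℝ) 1) ∈ closure ((dΦ σ) '' (probs D))
  · rw [Metric.mem_closure_iff] at hcl
    obtain ⟨c, ⟨p, hp, rfl⟩, hc⟩ := hcl ε hε
    rw [dist_zero_left] at hc
    refine ⟨p, hp.1, hp.2, fun i Λ => ?_⟩
    have h2 : ‖dΦ σ p i‖ ≤ ε := (norm_le_pi_norm _ i).trans hc.le
    have h3 := lp.sum_rpow_le_norm_rpow (p := 1) (by simp) (dΦ σ p i) (Λ.map (σ i).toEmbedding)
    simp only [ENNReal.toReal_one, Real.rpow_one, Finset.sum_map, dΦ_apply] at h3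
    calc ∑ A ∈ Λ, |p (σ i A) - p A| = ∑ A ∈ Λ, ‖p ((σ i).symm ((σ i).toEmbedding A)) - p ((σ i).toEmbedding A)‖ := by
          apply Finset.sum_congr rfl
          intro A _
          simp only [Equiv.coe_toEmbedding, Equiv.symm_apply_apply, Real.norm_eq_abs]
          rw [abs_sub_comm]
      _ ≤ ‖dΦ σ p i‖ := h3
      _ ≤ ε := h2
  · exfalso
    have hconv : Convex ℝ (closure ((dΦ σ) '' (probs D))) :=
      (convex_probs.linear_image (dΦ σ)).closure
    obtain ⟨φ, u, hφ0, hφ⟩ := geometric_hahn_banach_point_closed hconv isClosed_closure hcl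
    rw [map_zero] at hφ0
    set F : ι → D → ℝ := fun i A => φ (Pi.single i (lp.single 1 A (1 : ℝ))) with hF
    refine no_drift m h0 h1 hadd σ hinv F ‖φ‖ ?_ u hφ0 ?_
    · intro i A
      have h2 := φ.le_opNorm (Pi.single i (lp.single 1 A (1 : ℝ)))
      have h3 : ‖(Pi.single i (lp.single 1 A (1 : ℝ)) : ι → lp (fun _ : D => ℝ) 1)‖ = 1 := by
        rw [Pi.norm_single, lp.norm_single (by norm_num)]
        simp
      rw [h3, mul_one] at h2
      exact h2
    · intro A
      have hmem : dv σ A ∈ closure ((dΦ σ) '' (probs D)) := by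
        apply subset_closure
        refine ⟨Finsupp.single A 1, ⟨?_, ?_⟩, ?_⟩
        · intro B
          rw [Finsupp.single_apply]
          split_ifs <;> norm_num
        · rw [Finsupp.sum_single_index rfl]
        · rw [dΦ, Finsupp.linearCombination_single, one_smul]
      have h2 := hφ _ hmem
      have h3 : φ (dv σ A) = ∑ i, (F i (σ i A) - F i A) := by
        have h4 : dv σ A = ∑ i, Pi.single i (dv σ A i) := (Finset.univ_sum_single _).symm
        rw [h4, map_sum]
        apply Finset.sum_congr rfl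
        intro i _
        rw [dv, Pi.single_sub, map_sub]
      linarith

/-- `ℓ²` version -/
theorem exists_almost_inv_l2 (m : Set D → ℝ) (h0 : ∀ A, 0 ≤ m A) (h1 : m Set.univ = 1)
    (hadd : ∀ A B, Disjoint A B → m (A ∪ B) = m A + m B)
    (hinv : ∀ i A, m ((σ i) ⁻¹' A) = m A) (ε : ℝ) (hε : 0 < ε) :
    ∃ (f : D → ℝ) (s : Finset D), (∀ A, A ∉ s → f A = 0) ∧ ∑ A ∈ s, f A ^ 2 = 1 ∧
      ∀ i, ∀ Λ : Finset D, ∑ A ∈ Λ, (f (σ i A) - f A) ^ 2 ≤ ε ^ 2 := by
  obtain ⟨p, hp0, hp1, hp⟩ := exists_almost_inv σ m h0 h1 hadd hinv (ε ^ 2) (by positivity)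
  refine ⟨fun A => Real.sqrt (p A), p.support, ?_, ?_, ?_⟩
  · intro A hA
    rw [Finsupp.notMem_support_iff] at hA
    show Real.sqrt (p A) = 0
    rw [hA, Real.sqrt_zero]
  · rw [← hp1, Finsupp.sum]
    apply Finset.sum_congr rfl
    intro A _
    exact Real.sq_sqrt (hp0 A)
  · intro i Λ
    refine le_trans (Finset.sum_le_sum ?_) (hp i Λ)
    intro A _
    have ha := hp0 (σ i A)
    have hb := hp0 A
    have h2 := Real.sq_sqrt ha
    have h3 := Real.sq_sqrt hb
    have h4 := Real.sqrt_nonneg (p (σ i A))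
    have h5 := Real.sqrt_nonneg (p A)
    have h6 : p (σ i A) - p A = (Real.sqrt (p (σ i A)) - Real.sqrt (p A)) * (Real.sqrt (p (σ i A)) + Real.sqrt (p A)) := by
      nlinarith
    rw [h6, abs_mul, abs_of_nonneg (add_nonneg h4 h5), ← sq_abs, sq]
    apply mul_le_mul_of_nonneg_left _ (abs_nonneg _)
    rw [abs_le]
    constructor <;> linarith

end HB

end Pool.Agent.TH862.EA
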