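import Pool.Agent.TH862.Graph

set_option autoImplicit false

namespace Pool.Agent.TH862.EA

noncomputable def gens : Fin 5 → Equiv.Perm XX := ![pU, pL, pT1, pT2, tau]

theorem lev_tau (x : XX) : lev (tau x) ≤ lev x + 1 := by
  by_cases h1 : ∃ e, x = inn e
  · obtain ⟨e, rfl⟩ := h1
    rw [tau_inn]
    show e.1.1 ≤ (e.1.1 + 1) + 1
    omega
  by_cases h2 : ∃ e, x = out e
  · obtain ⟨e, rfl⟩ := h2
    rw [tau_out]
    show e.1.1 + 1 ≤ e.1.1 + 1
    omega
  push Not at h1 h2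
  rw [tau_other x h1 h2]
  omega

theorem tau_symm : tau⁻¹ = tau := by
  ext1 x
  rw [Equiv.Perm.inv_eq_iff_eq, tau_tau]

theorem lev_gens (i : Fin 5) (x : XX) : lev (gens i x) ≤ lev x + 1 := by
  fin_cases i
  · exact Nat.le_succ _
  · exact Nat.le_succ _
  · exact Nat.le_succ _
  · exact Nat.le_succ _
  · exact lev_tau x

theorem lev_gens_inv (i : Fin 5) (x : XX) : lev ((gens i)⁻¹ x) ≤ lev x + 1 := by
  fin_cases i
  · exact Nat.le_succ _
  · exact Nat.le_succ _
  · exact Nat.le_succ _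
  · exact Nat.le_succ _
  · show lev (tau⁻¹ x) ≤ lev x + 1
    rw [tau_symm]
    exact lev_tau x

/-- the action -/
noncomputable def hom : FreeGroup (Fin 5) →* Equiv.Perm XX := FreeGroup.lift gens

theorem hom_of (i : Fin 5) : hom (FreeGroup.of i) = gens i := FreeGroup.lift_apply_of ..

def Reach (x : XX) : Prop := ∃ g : FreeGroup (Fin 5), hom g x0 = x

theorem Reach.step {x : XX} (h : Reach x) (i : Fin 5) : Reach (gens i x) := by
  obtain ⟨g, rfl⟩ := h
  exact ⟨FreeGroup.of i * g, by rw [map_mul, hom_of]; rfl⟩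

theorem Reach.T1 {b : Blk} {y : YY b} (h : Reach ⟨b, y⟩) (k : ℕ) : Reach ⟨b, y + ((k : ZMod (pp b)), 0)⟩ := by
  induction k with
  | zero =>
    have h0 : y + (((0 : ℕ) : ZMod (pp b)), 0) = y := by ext <;> simp
    rw [h0]; exact h
  | succ k ih =>
    have h2 := ih.step 2
    have h3 : gens 2 ⟨b, y + ((k : ZMod (pp b)), 0)⟩ = ⟨b, y + (((k + 1 : ℕ) : ZMod (pp b)), 0)⟩ := by
      show (⟨b, y + ((k : ZMod (pp b)), 0) + (1, 0)⟩ : XX) = _
      congr 1
      rw [add_assoc]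
      congr 1
      simp
    rw [h3] at h2
    exact h2

theorem Reach.T2 {b : Blk} {y : YY b} (h : Reach ⟨b, y⟩) (k : ℕ) : Reach ⟨b, y + (0, (k : ZMod (pp b)))⟩ := by
  induction k with
  | zero =>
    have h0 : y + (0, ((0 : ℕ) : ZMod (pp b))) = y := by ext <;> simp
    rw [h0]; exact h
  | succ k ih =>
    have h2 := ih.step 3
    have h3 : gens 3 ⟨b, y + (0, (k : ZMod (pp b)))⟩ = ⟨b, y + (0, ((k + 1 : ℕ) : ZMod (pp b)))⟩ := by
      show (⟨b, y + (0, (k : ZMod (pp b))) + (0, 1)⟩ : XX) = _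
      congr 1
      rw [add_assoc]
      congr 1
      simp
    rw [h3] at h2
    exact h2

theorem Reach.block {b : Blk} {y : YY b} (h : Reach ⟨b, y⟩) (y' : YY b) : Reach ⟨b, y'⟩ := by
  have h1 := (h.T1 (y'.1 - y.1).val).T2 (y'.2 - y.2).val
  have h2 : y + (((y'.1 - y.1).val : ZMod (pp b)), 0) + (0, ((y'.2 - y.2).val : ZMod (pp b))) = y' := by
    rw [ZMod.natCast_zmod_val, ZMod.natCast_zmod_val]
    ext <;> simp
  rw [h2] at h1
  exact h1

theorem reach_all : ∀ l : ℕ, ∀ x : XX, lev x = l → Reach x := by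
  intro l
  induction l with
  | zero =>
    rintro ⟨b, y⟩ hx
    have h1 : b = rootB := Blk_root_unique b rootB hx rfl
    subst h1
    have h2 : Reach ⟨rootB, (0, 0)⟩ := ⟨1, by rw [map_one]; rfl⟩
    exact h2.block y
  | succ l ih =>
    rintro ⟨b, y⟩ hx
    obtain ⟨⟨l', j⟩, hb⟩ := b
    have hl : l' = l + 1 := hx
    subst hl
    set e : EE := ⟨(l, j), hb⟩ with he
    have h1 : Reach (out e) := ih (out e) rfl
    have h2 := h1.step 4
    have h3 : gens 4 (out e) = inn e := tau_out e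
    rw [h3] at h2
    exact Reach.block (b := chB e) h2 y

theorem reach (x : XX) : Reach x := reach_all (lev x) x rfl

/-- blocks up to level n -/
def BL (n : ℕ) : Finset Blk :=
  ((Finset.range (n + 1)) ×ˢ (Finset.range ((n + 1) ^ 2))).subtype (fun b => b.2 < NN b.1)

theorem mem_BL (n : ℕ) (b : Blk) (h : b.1.1 ≤ n) : b ∈ BL n := by
  unfold BL
  rw [Finset.mem_subtype, Finset.mem_product, Finset.mem_range, Finset.mem_range]
  refine ⟨by omega, ?_⟩
  calc b.1.2 < NN b.1.1 := b.2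
    _ ≤ (b.1.1 + 1) ^ 2 := NN_le _
    _ ≤ (n + 1) ^ 2 := Nat.pow_le_pow_left (by omega) 2

theorem lev_of_mem_BL (n : ℕ) (b : Blk) (h : b ∈ BL n) : b.1.1 ≤ n := by
  unfold BL at h
  rw [Finset.mem_subtype, Finset.mem_product, Finset.mem_range, Finset.mem_range] at h
  omega

theorem card_BL (n : ℕ) : (BL n).card ≤ (n + 1) ^ 3 := by
  unfold BL
  rw [Finset.card_subtype]
  refine (Finset.card_filter_le _ _).trans ?_
  rw [Finset.card_product, Finset.card_range, Finset.card_range]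
  apply le_of_eq; ring

theorem pp_le' (n : ℕ) (b : Blk) (h : b.1.1 ≤ n) : pp b ≤ 196 * (n + 1) ^ 8 := by
  refine (pp_le b).trans ?_
  have h1 : (b.1.1 + 1) ^ 4 ≤ (n + 1) ^ 4 := Nat.pow_le_pow_left (by omega) 4
  have h2 : 1 ≤ (n + 1) ^ 4 := Nat.one_le_pow _ _ (by omega)
  have h3 : (b.1.1 + 1) ^ 4 * 4 + 3 ≤ 7 * (n + 1) ^ 4 := by omega
  calc 4 * ((b.1.1 + 1) ^ 4 * 4 + 3) ^ 2 ≤ 4 * (7 * (n + 1) ^ 4) ^ 2 :=
        Nat.mul_le_mul_left _ (Nat.pow_le_pow_left h3 2)
    _ = 196 * (n + 1) ^ 8 := by ring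

theorem card_level (n : ℕ) : {x : XX | lev x ≤ n}.ncard ≤ 38416 * (n + 1) ^ 19 := by
  have h1 : {x : XX | lev x ≤ n} ⊆ ((BL n).sigma (fun b => (Finset.univ : Finset (YY b))) : Finset XX) := by
    intro x hx
    rw [Finset.mem_coe, Finset.mem_sigma]
    exact ⟨mem_BL n x.1 hx, Finset.mem_univ _⟩
  refine (Set.ncard_le_ncard h1 (Finset.finite_toSet _)).trans ?_
  rw [Set.ncard_coe_finset, Finset.card_sigma]
  calc ∑ b ∈ BL n, (Finset.univ : Finset (YY b)).card ≤ ∑ b ∈ BL n, (196 * (n + 1) ^ 8) ^ 2 := by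
        apply Finset.sum_le_sum
        intro b hb
        rw [Finset.card_univ, Fintype.card_prod, ZMod.card, ← sq]
        exact Nat.pow_le_pow_left (pp_le' n b (lev_of_mem_BL n b hb)) 2
    _ = (BL n).card * (196 * (n + 1) ^ 8) ^ 2 := by rw [Finset.sum_const, smul_eq_mul]
    _ ≤ (n + 1) ^ 3 * (196 * (n + 1) ^ 8) ^ 2 := Nat.mul_le_mul_right _ (card_BL n)
    _ = 38416 * (n + 1) ^ 19 := by ring

theorem level_finite (n : ℕ) : {x : XX | lev x ≤ n}.Finite := by
  have h1 : {x : XX | lev x ≤ n} ⊆ ((BL n).sigma (fun b => (Finset.univ : Finset (YY b))) : Finset XX) := by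
    intro x hx
    rw [Finset.mem_coe, Finset.mem_sigma]
    exact ⟨mem_BL n x.1 hx, Finset.mem_univ _⟩
  exact (Finset.finite_toSet _).subset h1

/-- a word of length `n` moves the level by at most `n` -/
theorem lev_word (l : List (FreeGroup (Fin 5)))
    (hl : ∀ s ∈ l, s ∈ Set.range (FreeGroup.of : Fin 5 → _) ∨ s⁻¹ ∈ Set.range (FreeGroup.of : Fin 5 → _)) :
    lev (hom l.prod x0) ≤ l.length := by
  induction l with
  | nil => rw [List.prod_nil, map_one]; exact le_refl _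
  | cons s l ih =>
    have ih' := ih (fun t ht => hl t (List.mem_cons_of_mem _ ht))
    rw [List.prod_cons, map_mul, Equiv.Perm.mul_apply, List.length_cons]
    have h1 : lev (hom s (hom l.prod x0)) ≤ lev (hom l.prod x0) + 1 := by
      rcases hl s List.mem_cons_self with ⟨i, rfl⟩ | ⟨i, hi⟩
      · rw [hom_of]; exact lev_gens i _
      · have : s = (FreeGroup.of i)⁻¹ := by rw [hi, inv_inv]
        rw [this, map_inv, hom_of]; exact lev_gens_inv i _
    omega

theorem growth (n : ℕ) (S : Finset (FreeGroup (Fin 5))) (hS : (S : Set _) = Set.range (FreeGroup.of : Fin 5 → _)) :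
    Set.ncard {y : XX | ∃ l : List (FreeGroup (Fin 5)), l.length ≤ n ∧
      (∀ s ∈ l, s ∈ S ∨ s⁻¹ ∈ S) ∧ hom l.prod x0 = y} ≤ 38416 * (n + 1) ^ 19 := by
  refine le_trans (Set.ncard_le_ncard ?_ (level_finite n)) (card_level n)
  rintro y ⟨l, hl1, hl2, rfl⟩
  refine (lev_word l ?_).trans hl1
  intro s hs
  rw [← hS]
  simpa using hl2 s hs

end Pool.Agent.TH862.EA
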