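import Mathlib

set_option autoImplicit false

namespace Pool.Agent.TH862.EA

open Finset

/-- transfer of mass -/
theorem transfer {V : Type} [Fintype V] (b : V → ℝ) (hb1 : ∑ ξ, b ξ ^ 2 = 1) (g : V ≃ V)
    (ε : ℝ) (hε : 0 ≤ ε) (hg : ∑ ξ, (b (g ξ) - b ξ) ^ 2 ≤ ε ^ 2) (P Q : V → Prop)
    [DecidablePred P] [DecidablePred Q] (hPQ : ∀ ξ, P ξ → Q (g ξ)) :
    ∑ ξ with P ξ, b ξ ^ 2 ≤ ∑ ξ with Q ξ, b ξ ^ 2 + 2 * ε := by
  have h1 : ∑ ξ with P ξ, b (g ξ) ^ 2 ≤ ∑ ξ with Q ξ, b ξ ^ 2 := by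
    have : ∑ ξ with P ξ, b (g ξ) ^ 2 = ∑ ξ ∈ (univ.filter P).map g.toEmbedding, b ξ ^ 2 := by
      rw [sum_map]; rfl
    rw [this]
    apply sum_le_sum_of_subset_of_nonneg
    · intro ξ hξ
      rw [mem_map] at hξ
      obtain ⟨η, hη, rfl⟩ := hξ
      rw [mem_filter] at hη ⊢
      exact ⟨mem_univ _, hPQ η hη.2⟩
    · intros; positivity
  have hg2 : ∑ ξ, b (g ξ) ^ 2 = 1 := by
    rw [← hb1]; exact Equiv.sum_comp g (fun ξ => b ξ ^ 2)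
  have h2 : (∑ ξ with P ξ, (b ξ ^ 2 - b (g ξ) ^ 2)) ^ 2 ≤ (2 * ε) ^ 2 := by
    have h3 : ∑ ξ with P ξ, (b ξ ^ 2 - b (g ξ) ^ 2)
        = ∑ ξ with P ξ, (b ξ - b (g ξ)) * (b ξ + b (g ξ)) := by
      apply sum_congr rfl; intros; ring
    rw [h3]
    have h4 := sum_mul_sq_le_sq_mul_sq (univ.filter P) (fun ξ => b ξ - b (g ξ)) (fun ξ => b ξ + b (g ξ))
    have h5 : ∑ ξ with P ξ, (b ξ - b (g ξ)) ^ 2 ≤ ε ^ 2 := by
      calc ∑ ξ with P ξ, (b ξ - b (g ξ)) ^ 2 ≤ ∑ ξ, (b ξ - b (g ξ)) ^ 2 :=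
            sum_le_sum_of_subset_of_nonneg (filter_subset _ _) (by intros; positivity)
        _ = ∑ ξ, (b (g ξ) - b ξ) ^ 2 := by apply sum_congr rfl; intros; ring
        _ ≤ ε ^ 2 := hg
    have h6 : ∑ ξ with P ξ, (b ξ + b (g ξ)) ^ 2 ≤ 4 := by
      calc ∑ ξ with P ξ, (b ξ + b (g ξ)) ^ 2 ≤ ∑ ξ, (b ξ + b (g ξ)) ^ 2 :=
            sum_le_sum_of_subset_of_nonneg (filter_subset _ _) (by intros; positivity)
        _ ≤ ∑ ξ, (2 * b ξ ^ 2 + 2 * b (g ξ) ^ 2) := by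
            apply sum_le_sum
            intro ξ _
            nlinarith [sq_nonneg (b ξ - b (g ξ))]
        _ = 4 := by rw [sum_add_distrib, ← mul_sum, ← mul_sum, hb1, hg2]; norm_num
    calc (∑ ξ with P ξ, (b ξ - b (g ξ)) * (b ξ + b (g ξ))) ^ 2 ≤ _ := h4
      _ ≤ ε ^ 2 * 4 := by
          apply mul_le_mul h5 h6 _ (by positivity)
          apply sum_nonneg; intros; positivity
      _ = (2 * ε) ^ 2 := by ring
  have h7 := abs_le_of_sq_le_sq h2 (by positivity)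
  have h8 : ∑ ξ with P ξ, (b ξ ^ 2 - b (g ξ) ^ 2) ≤ 2 * ε := le_of_abs_le h7
  rw [sum_sub_distrib] at h8
  linarith

/-- monotonicity in the predicate -/
theorem mass_mono {V : Type} [Fintype V] (b : V → ℝ) (P Q : V → Prop)
    [DecidablePred P] [DecidablePred Q] (hPQ : ∀ ξ, P ξ → Q ξ) :
    ∑ ξ with P ξ, b ξ ^ 2 ≤ ∑ ξ with Q ξ, b ξ ^ 2 := by
  apply sum_le_sum_of_subset_of_nonneg
  · intro ξ hξ
    rw [mem_filter] at hξ ⊢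
    exact ⟨hξ.1, hPQ ξ hξ.2⟩
  · intros; positivity

theorem mass_or {V : Type} [Fintype V] (b : V → ℝ) (P Q R : V → Prop)
    [DecidablePred P] [DecidablePred Q] [DecidablePred R] (hPQ : ∀ ξ, R ξ → P ξ ∨ Q ξ) :
    ∑ ξ with R ξ, b ξ ^ 2 ≤ ∑ ξ with P ξ, b ξ ^ 2 + ∑ ξ with Q ξ, b ξ ^ 2 := by
  classical
  calc ∑ ξ with R ξ, b ξ ^ 2 ≤ ∑ ξ ∈ (univ.filter P) ∪ (univ.filter Q), b ξ ^ 2 := by
        apply sum_le_sum_of_subset_of_nonneg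
        · intro ξ hξ
          rw [mem_filter] at hξ
          rw [mem_union, mem_filter, mem_filter]
          rcases hPQ ξ hξ.2 with h | h
          · exact Or.inl ⟨mem_univ _, h⟩
          · exact Or.inr ⟨mem_univ _, h⟩
        · intros; positivity
    _ ≤ _ := by
        have h := sum_union_inter (s₁ := univ.filter P) (s₂ := univ.filter Q) (f := fun ξ => b ξ ^ 2)
        have h2 : 0 ≤ ∑ ξ ∈ (univ.filter P) ∩ (univ.filter Q), b ξ ^ 2 :=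
          sum_nonneg (by intros; positivity)
        linarith

theorem mass_disj {V : Type} [Fintype V] (b : V → ℝ) (P Q R : V → Prop)
    [DecidablePred P] [DecidablePred Q] [DecidablePred R] (hP : ∀ ξ, P ξ → R ξ) (hQ : ∀ ξ, Q ξ → R ξ)
    (hPQ : ∀ ξ, P ξ → Q ξ → False) :
    ∑ ξ with P ξ, b ξ ^ 2 + ∑ ξ with Q ξ, b ξ ^ 2 ≤ ∑ ξ with R ξ, b ξ ^ 2 := by
  classical
  rw [← sum_union]
  · apply sum_le_sum_of_subset_of_nonneg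
    · intro ξ hξ
      rw [mem_union, mem_filter, mem_filter] at hξ
      rw [mem_filter]
      rcases hξ with h | h
      · exact ⟨mem_univ _, hP ξ h.2⟩
      · exact ⟨mem_univ _, hQ ξ h.2⟩
    · intros; positivity
  · rw [disjoint_left]
    intro ξ h1 h2
    rw [mem_filter] at h1 h2
    exact hPQ ξ h1.2 h2.2

variable {n : ℕ} [NeZero n]

def eU (n : ℕ) : ZMod n × ZMod n ≃ ZMod n × ZMod n where
  toFun ξ := (ξ.1 + ξ.2, ξ.2)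
  invFun ξ := (ξ.1 - ξ.2, ξ.2)
  left_inv ξ := by ext <;> simp
  right_inv ξ := by ext <;> simp

def eL (n : ℕ) : ZMod n × ZMod n ≃ ZMod n × ZMod n where
  toFun ξ := (ξ.1, ξ.2 + ξ.1)
  invFun ξ := (ξ.1, ξ.2 - ξ.1)
  left_inv ξ := by ext <;> simp
  right_inv ξ := by ext <;> simp

theorem vma_add (x y : ZMod n) (hx : 4 * |x.valMinAbs| < n) (hy : 4 * |y.valMinAbs| < n) :
    (x + y).valMinAbs = x.valMinAbs + y.valMinAbs := by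
  rw [ZMod.valMinAbs_spec]
  refine ⟨by simp, ?_⟩
  rw [Set.mem_Ioc]
  have hx1 := neg_abs_le x.valMinAbs
  have hx2 := le_abs_self x.valMinAbs
  have hy1 := neg_abs_le y.valMinAbs
  have hy2 := le_abs_self y.valMinAbs
  constructor <;> linarith

theorem vma_sub (x y : ZMod n) (hx : 4 * |x.valMinAbs| < n) (hy : 4 * |y.valMinAbs| < n) :
    (x - y).valMinAbs = x.valMinAbs - y.valMinAbs := by
  rw [ZMod.valMinAbs_spec]
  refine ⟨by simp, ?_⟩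
  rw [Set.mem_Ioc]
  have hx1 := neg_abs_le x.valMinAbs
  have hx2 := le_abs_self x.valMinAbs
  have hy1 := neg_abs_le y.valMinAbs
  have hy2 := le_abs_self y.valMinAbs
  constructor <;> linarith

def Near (ξ : ZMod n × ZMod n) : Prop := 4 * |ξ.1.valMinAbs| < n ∧ 4 * |ξ.2.valMinAbs| < n


open Classical in
/-- The combinatorial heart of relative property (T): a nonnegative function on the dual group
which is almost invariant under the two elementary matrices and concentrated near the origin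
is concentrated at the origin. -/
theorem comb (b : ZMod n × ZMod n → ℝ) (hb1 : ∑ ξ, b ξ ^ 2 = 1) (ε : ℝ) (hε : 0 ≤ ε)
    (hU : ∑ ξ, (b (eU n ξ) - b ξ) ^ 2 ≤ ε ^ 2) (hL : ∑ ξ, (b (eL n ξ) - b ξ) ^ 2 ≤ ε ^ 2)
    (F : ℝ) (hfar : ∑ ξ with ¬ Near ξ, b ξ ^ 2 ≤ F) :
    ∑ ξ with ξ ≠ 0, b ξ ^ 2 ≤ 5 * F + 14 * ε := by
  have hU' : ∑ ξ, (b ((eU n).symm ξ) - b ξ) ^ 2 ≤ ε ^ 2 := by
    rw [← Equiv.sum_comp (eU n)]
    simp only [Equiv.symm_apply_apply]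
    calc _ = ∑ ξ, (b (eU n ξ) - b ξ) ^ 2 := by apply sum_congr rfl; intros; ring
      _ ≤ _ := hU
  have hL' : ∑ ξ, (b ((eL n).symm ξ) - b ξ) ^ 2 ≤ ε ^ 2 := by
    rw [← Equiv.sum_comp (eL n)]
    simp only [Equiv.symm_apply_apply]
    calc _ = ∑ ξ, (b (eL n ξ) - b ξ) ^ 2 := by apply sum_congr rfl; intros; ring
      _ ≤ _ := hL
  set X : ZMod n × ZMod n → ℤ := fun ξ => ξ.1.valMinAbs with hX
  set Y : ZMod n × ZMod n → ℤ := fun ξ => ξ.2.valMinAbs with hY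
  -- coordinates
  have cU1 : ∀ ξ, Near ξ → X (eU n ξ) = X ξ + Y ξ := fun ξ h => vma_add _ _ h.1 h.2
  have cU2 : ∀ ξ, Y (eU n ξ) = Y ξ := fun ξ => rfl
  have cL1 : ∀ ξ, X (eL n ξ) = X ξ := fun ξ => rfl
  have cL2 : ∀ ξ, Near ξ → Y (eL n ξ) = Y ξ + X ξ := fun ξ h => vma_add _ _ h.2 h.1
  have cU1' : ∀ ξ, Near ξ → X ((eU n).symm ξ) = X ξ - Y ξ := fun ξ h => vma_sub _ _ h.1 h.2
  have cU2' : ∀ ξ, Y ((eU n).symm ξ) = Y ξ := fun ξ => rfl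
  have cL1' : ∀ ξ, X ((eL n).symm ξ) = X ξ := fun ξ => rfl
  have cL2' : ∀ ξ, Near ξ → Y ((eL n).symm ξ) = Y ξ - X ξ := fun ξ h => vma_sub _ _ h.2 h.1
  -- masses
  set far := ∑ ξ with ¬ Near ξ, b ξ ^ 2 with hfar'
  set P1 := ∑ ξ with (Near ξ ∧ 0 ≤ X ξ * Y ξ ∧ Y ξ ≠ 0), b ξ ^ 2 with hP1
  set Q1 := ∑ ξ with (0 < X ξ * Y ξ ∧ Y ξ ^ 2 ≤ X ξ ^ 2), b ξ ^ 2 with hQ1
  set P2 := ∑ ξ with (Near ξ ∧ 0 < X ξ * Y ξ), b ξ ^ 2 with hP2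
  set Q2 := ∑ ξ with (0 < X ξ * Y ξ ∧ X ξ ^ 2 < Y ξ ^ 2), b ξ ^ 2 with hQ2
  set Qp := ∑ ξ with (0 < X ξ * Y ξ), b ξ ^ 2 with hQp
  set P1' := ∑ ξ with (Near ξ ∧ X ξ * Y ξ ≤ 0 ∧ Y ξ ≠ 0), b ξ ^ 2 with hP1'
  set Q1' := ∑ ξ with (X ξ * Y ξ < 0 ∧ Y ξ ^ 2 ≤ X ξ ^ 2), b ξ ^ 2 with hQ1'
  set P2' := ∑ ξ with (Near ξ ∧ X ξ * Y ξ < 0), b ξ ^ 2 with hP2'
  set Q2' := ∑ ξ with (X ξ * Y ξ < 0 ∧ X ξ ^ 2 < Y ξ ^ 2), b ξ ^ 2 with hQ2'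
  set Qn := ∑ ξ with (X ξ * Y ξ < 0), b ξ ^ 2 with hQn
  set P3 := ∑ ξ with (Near ξ ∧ Y ξ = 0 ∧ X ξ ≠ 0), b ξ ^ 2 with hP3
  have t1 : P1 ≤ Q1 + 2 * ε := by
    apply transfer b hb1 (eU n) ε hε hU
    rintro ξ ⟨hn, h1, h2⟩
    rw [cU1 ξ hn, cU2]
    have h3 : 0 < Y ξ ^ 2 := by positivity
    constructor <;> nlinarith [sq_nonneg (X ξ)]
  have t2 : P2 ≤ Q2 + 2 * ε := by
    apply transfer b hb1 (eL n) ε hε hL
    rintro ξ ⟨hn, h1⟩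
    rw [cL1 ξ, cL2 ξ hn]
    have hy : Y ξ ≠ 0 := by rintro h; rw [h] at h1; simp at h1
    have h3 : 0 < Y ξ ^ 2 := by positivity
    constructor <;> nlinarith [sq_nonneg (X ξ)]
  have t3 : Q1 + Q2 ≤ Qp := by
    apply mass_disj
    · rintro ξ ⟨h, _⟩; exact h
    · rintro ξ ⟨h, _⟩; exact h
    · rintro ξ ⟨_, h⟩ ⟨_, h'⟩; linarith
  have t4 : Qp ≤ P2 + far := by
    apply mass_or
    intro ξ h
    by_cases hn : Near ξ
    · exact Or.inl ⟨hn, h⟩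
    · exact Or.inr hn
  have t1' : P1' ≤ Q1' + 2 * ε := by
    apply transfer b hb1 (eU n).symm ε hε hU'
    rintro ξ ⟨hn, h1, h2⟩
    rw [cU1' ξ hn, cU2']
    have h3 : 0 < Y ξ ^ 2 := by positivity
    constructor <;> nlinarith [sq_nonneg (X ξ)]
  have t2' : P2' ≤ Q2' + 2 * ε := by
    apply transfer b hb1 (eL n).symm ε hε hL'
    rintro ξ ⟨hn, h1⟩
    rw [cL1' ξ, cL2' ξ hn]
    have hy : Y ξ ≠ 0 := by rintro h; rw [h] at h1; simp at h1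
    have h3 : 0 < Y ξ ^ 2 := by positivity
    constructor <;> nlinarith [sq_nonneg (X ξ)]
  have t3' : Q1' + Q2' ≤ Qn := by
    apply mass_disj
    · rintro ξ ⟨h, _⟩; exact h
    · rintro ξ ⟨h, _⟩; exact h
    · rintro ξ ⟨_, h⟩ ⟨_, h'⟩; linarith
  have t4' : Qn ≤ P2' + far := by
    apply mass_or
    intro ξ h
    by_cases hn : Near ξ
    · exact Or.inl ⟨hn, h⟩
    · exact Or.inr hn
  have t5 : P3 ≤ Qp + 2 * ε := by
    apply transfer b hb1 (eL n) ε hε hL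
    rintro ξ ⟨hn, h1, h2⟩
    rw [cL1 ξ, cL2 ξ hn, h1, zero_add]
    exact mul_self_pos.mpr h2
  have t6 : P2 ≤ P1 := by
    apply mass_mono
    rintro ξ ⟨hn, h1⟩
    refine ⟨hn, h1.le, ?_⟩
    rintro h; rw [h] at h1; simp at h1
  have t7 : ∑ ξ with ξ ≠ 0, b ξ ^ 2 ≤ far + ∑ ξ with (Near ξ ∧ ξ ≠ 0), b ξ ^ 2 := by
    apply mass_or
    intro ξ h
    by_cases hn : Near ξ
    · exact Or.inr ⟨hn, h⟩
    · exact Or.inl hn
  have t8 : ∑ ξ with (Near ξ ∧ ξ ≠ 0), b ξ ^ 2 ≤ P3 + ∑ ξ with (Near ξ ∧ Y ξ ≠ 0), b ξ ^ 2 := by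
    apply mass_or
    rintro ξ ⟨hn, h⟩
    by_cases hy : Y ξ = 0
    · left
      refine ⟨hn, hy, ?_⟩
      intro hx
      apply h
      ext
      · exact (ZMod.valMinAbs_eq_zero _).mp hx
      · exact (ZMod.valMinAbs_eq_zero _).mp hy
    · exact Or.inr ⟨hn, hy⟩
  have t9 : ∑ ξ with (Near ξ ∧ Y ξ ≠ 0), b ξ ^ 2 ≤ P1 + P1' := by
    apply mass_or
    rintro ξ ⟨hn, h⟩
    rcases le_total 0 (X ξ * Y ξ) with h1 | h1
    · exact Or.inl ⟨hn, h1, h⟩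
    · exact Or.inr ⟨hn, h1, h⟩
  have t10 : P2' ≤ P1' := by
    apply mass_mono
    rintro ξ ⟨hn, h1⟩
    refine ⟨hn, h1.le, ?_⟩
    rintro h; rw [h] at h1; simp at h1
  linarith

end Pool.Agent.TH862.EA
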