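import Mathlib

set_option autoImplicit false

namespace Pool.Agent.TH862.EA

open Chebyshev in
theorem nth_prime_le (k : ℕ) : Nat.nth Nat.Prime k ≤ 4 * (k + 1) ^ 2 := by
  by_contra hcon
  push Not at hcon
  set n : ℕ := 4 * (k + 1) ^ 2 with hn
  have h1 : Nat.primeCounting n ≤ k := by
    have h2 : Nat.primeCounting n = Nat.primeCounting' (n + 1) := Nat.primeCounting_eq_primeCounting'_succ n
    rw [h2]
    calc Nat.primeCounting' (n + 1) ≤ Nat.primeCounting' (Nat.nth Nat.Prime k) :=
          Nat.monotone_primeCounting' (by omega)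
      _ = k := Nat.primeCounting'_nth_eq k
  have h3 : Nat.lcmUpto n ≤ (n + 1) ^ k := by
    rw [Nat.lcmUpto_eq_prod_pow_log]
    calc ∏ p ∈ Nat.primesLE n, p ^ p.log n ≤ ∏ p ∈ Nat.primesLE n, (n + 1) := by
          apply Finset.prod_le_prod'
          intro p hp
          have hn0 : n ≠ 0 := by rw [hn]; positivity
          exact (Nat.pow_log_le_self p hn0).trans (Nat.le_succ n)
      _ = (n + 1) ^ (Nat.primesLE n).card := by rw [Finset.prod_const]
      _ = (n + 1) ^ (Nat.primeCounting n) := by rw [Nat.primesLE_card_eq_primeCounting]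
      _ ≤ (n + 1) ^ k := Nat.pow_le_pow_right (Nat.succ_pos n) h1
  have h4 : 2 ^ n ≤ (n + 1) ^ (k + 1) := by
    calc 2 ^ n ≤ (n + 1) * Nat.lcmUpto n := Chebyshev.two_pow_le_mul_lcmUpto n
      _ ≤ (n + 1) * (n + 1) ^ k := Nat.mul_le_mul_left _ h3
      _ = (n + 1) ^ (k + 1) := by ring
  have h5 : ∀ a : ℕ, 1 ≤ a → 4 * a ^ 2 + 1 < 16 ^ a := by
    intro a ha
    induction a, ha using Nat.le_induction with
    | base => norm_num
    | succ a ha ih =>
      have h16 : (16 : ℕ) ^ (a + 1) = 16 ^ a * 16 := pow_succ _ _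
      rw [h16]
      nlinarith [Nat.zero_le a]
  have h6 : (n + 1) ^ (k + 1) < 2 ^ n := by
    calc (n + 1) ^ (k + 1) < (16 ^ (k + 1)) ^ (k + 1) :=
          Nat.pow_lt_pow_left (h5 (k + 1) (by omega)) (by omega)
      _ = 2 ^ n := by
          rw [hn, ← pow_mul]
          have : (16 : ℕ) = 2 ^ 4 := by norm_num
          rw [this, ← pow_mul]
          congr 1
          ring
  omega

end Pool.Agent.TH862.EA
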