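import Pool.Agent.TH862.CombT
import Pool.Agent.TH862.PrimeBd

set_option autoImplicit false

namespace Pool.Agent.TH862.EA

/-- number of blocks on level `l` -/
def NN (l : ℕ) : ℕ := 4 ^ Nat.log 2 l

theorem NN_pos (l : ℕ) : 0 < NN l := by unfold NN; positivity

theorem NN_zero : NN 0 = 1 := by simp [NN]

theorem NN_one : NN 1 = 1 := by simp [NN]

theorem NN_dvd (l : ℕ) : NN l ∣ NN (l + 1) := by
  unfold NN
  exact pow_dvd_pow _ (Nat.log_mono_right (Nat.le_succ l))

theorem NN_succ_le (l : ℕ) : NN (l + 1) ≤ 4 * NN l := by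
  unfold NN
  rw [← pow_succ']
  apply Nat.pow_le_pow_right (by norm_num)
  rcases Nat.eq_zero_or_pos l with h | h
  · subst h; simp
  · calc Nat.log 2 (l + 1) ≤ Nat.log 2 (l * 2) := Nat.log_mono_right (by omega)
      _ = Nat.log 2 l + 1 := Nat.log_mul_base (by norm_num) (by omega)

theorem NN_le (l : ℕ) : NN l ≤ (l + 1) ^ 2 := by
  unfold NN
  rcases Nat.eq_zero_or_pos l with h | h
  · subst h; simp
  · have h1 : 2 ^ Nat.log 2 l ≤ l := Nat.pow_log_le_self 2 (by omega)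
    calc 4 ^ Nat.log 2 l = (2 ^ Nat.log 2 l) ^ 2 := by
          rw [← pow_mul, mul_comm, pow_mul]; norm_num
      _ ≤ l ^ 2 := Nat.pow_le_pow_left h1 2
      _ ≤ (l + 1) ^ 2 := Nat.pow_le_pow_left (by omega) 2

theorem le_NN (l : ℕ) : l ^ 2 ≤ 4 * NN l := by
  unfold NN
  have h1 : l < 2 ^ (Nat.log 2 l + 1) := Nat.lt_pow_succ_log_self (by norm_num) l
  calc l ^ 2 ≤ (2 ^ (Nat.log 2 l + 1)) ^ 2 := Nat.pow_le_pow_left h1.le 2
    _ = 4 * 4 ^ Nat.log 2 l := by
        rw [← pow_mul, mul_comm, pow_mul, pow_succ]; norm_num; ring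

/-- blocks -/
abbrev Blk : Type := {b : ℕ × ℕ // b.2 < NN b.1}

/-- modulus of a block -/
noncomputable def pp (b : Blk) : ℕ := if b.1.1 = 0 then 1 else Nat.nth Nat.Prime (Nat.pair b.1.1 b.1.2 + 2)

theorem pp_prime (b : Blk) (h : b.1.1 ≠ 0) : Nat.Prime (pp b) := by
  unfold pp
  rw [if_neg h]
  exact Nat.prime_nth_prime _

theorem pp_root (b : Blk) (h : b.1.1 = 0) : pp b = 1 := by
  unfold pp
  rw [if_pos h]

theorem five_le_pp (b : Blk) (h : b.1.1 ≠ 0) : 5 ≤ pp b := by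
  unfold pp
  rw [if_neg h]
  have h1 := Nat.add_two_le_nth_prime (Nat.pair b.1.1 b.1.2 + 2)
  have h2 := Nat.left_le_pair b.1.1 b.1.2
  omega

theorem pp_pos (b : Blk) : 0 < pp b := by
  by_cases h : b.1.1 = 0
  · rw [pp_root b h]; norm_num
  · exact (pp_prime b h).pos

instance (b : Blk) : NeZero (pp b) := ⟨(pp_pos b).ne'⟩

theorem Blk_root_unique (b b' : Blk) (h : b.1.1 = 0) (h' : b'.1.1 = 0) : b = b' := by
  obtain ⟨⟨l, j⟩, hb⟩ := b
  obtain ⟨⟨l', j'⟩, hb'⟩ := b'
  simp only at h h'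
  subst h
  subst h'
  simp only [NN_zero, Nat.lt_one_iff] at hb hb'
  subst hb
  subst hb'
  rfl

theorem pp_coprime (b b' : Blk) (h : b ≠ b') : Nat.Coprime (pp b) (pp b') := by
  by_cases h1 : b.1.1 = 0
  · rw [pp_root b h1]; exact Nat.coprime_one_left _
  by_cases h2 : b'.1.1 = 0
  · rw [pp_root b' h2]; exact Nat.coprime_one_right _
  rw [Nat.coprime_primes (pp_prime b h1) (pp_prime b' h2)]
  intro h3
  apply h
  unfold pp at h3
  rw [if_neg h1, if_neg h2] at h3
  have h4 := Nat.nth_injective Nat.infinite_setOfPred_prime h3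
  have h5 : Nat.pair b.1.1 b.1.2 = Nat.pair b'.1.1 b'.1.2 := by omega
  rw [Nat.pair_eq_pair] at h5
  exact Subtype.ext (Prod.ext h5.1 h5.2)

theorem pp_le (b : Blk) : pp b ≤ 4 * ((b.1.1 + 1) ^ 4 * 4 + 3) ^ 2 := by
  by_cases h1 : b.1.1 = 0
  · rw [pp_root b h1]
    have : 0 < 4 * ((b.1.1 + 1) ^ 4 * 4 + 3) ^ 2 := by positivity
    omega
  · unfold pp
    rw [if_neg h1]
    have h2 := nth_prime_le (Nat.pair b.1.1 b.1.2 + 2)
    refine h2.trans ?_
    have h3 : Nat.pair b.1.1 b.1.2 ≤ (b.1.1 + 1) ^ 4 * 4 := by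
      have h4 := Nat.pair_lt_max_add_one_sq b.1.1 b.1.2
      have h5 : max b.1.1 b.1.2 + 1 ≤ 2 * (b.1.1 + 1) ^ 2 := by
        have h6 := b.2
        have h7 := NN_le b.1.1
        rcases max_cases b.1.1 b.1.2 with h | h
        · rw [h.1]; nlinarith
        · rw [h.1]
          have : 1 ≤ (b.1.1 + 1) ^ 2 := Nat.one_le_pow _ _ (by omega)
          omega
      have h8 : (max b.1.1 b.1.2 + 1) ^ 2 ≤ (2 * (b.1.1 + 1) ^ 2) ^ 2 := Nat.pow_le_pow_left h5 2
      calc Nat.pair b.1.1 b.1.2 ≤ (max b.1.1 b.1.2 + 1) ^ 2 := h4.le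
        _ ≤ (2 * (b.1.1 + 1) ^ 2) ^ 2 := h8
        _ = (b.1.1 + 1) ^ 4 * 4 := by ring
    apply Nat.mul_le_mul_left
    apply Nat.pow_le_pow_left
    omega

/-- the block of points -/
abbrev YY (b : Blk) : Type := ZMod (pp b) × ZMod (pp b)

/-- the space -/
abbrev XX : Type := Σ b : Blk, YY b

def lev (x : XX) : ℕ := x.1.1.1

/-- edges of the tree of blocks: `(l, j)` is the edge from block `(l+1, j)` to its parent. -/
abbrev EE : Type := {e : ℕ × ℕ // e.2 < NN (e.1 + 1)}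

def chB (e : EE) : Blk := ⟨(e.1.1 + 1, e.1.2), e.2⟩

def paB (e : EE) : Blk := ⟨(e.1.1, e.1.2 % NN e.1.1), Nat.mod_lt _ (NN_pos _)⟩

noncomputable def inn (e : EE) : XX := ⟨chB e, (0, 0)⟩

noncomputable def out (e : EE) : XX := ⟨paB e, (((1 + e.1.2 / NN e.1.1 : ℕ) : ZMod (pp (paB e))), 0)⟩

theorem inn_inj (e e' : EE) (h : inn e = inn e') : e = e' := by
  have h1 : chB e = chB e' := congrArg Sigma.fst h
  have h2 := congrArg Subtype.val h1
  simp only [chB, Prod.mk.injEq, add_left_inj] at h2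
  exact Subtype.ext (Prod.ext h2.1 h2.2)

theorem quot_lt (e : EE) : e.1.2 / NN e.1.1 < 4 := by
  rw [Nat.div_lt_iff_lt_mul (NN_pos _)]
  exact lt_of_lt_of_le e.2 (NN_succ_le _)

/-- first coordinate as a natural number -/
noncomputable def fc1 (x : XX) : ℕ := x.2.1.val

theorem fc1_out (e : EE) (h : e.1.1 ≠ 0) : fc1 (out e) = 1 + e.1.2 / NN e.1.1 := by
  unfold fc1 out
  simp only
  apply ZMod.val_cast_of_lt
  have h1 := quot_lt e
  have h2 := five_le_pp (paB e) h
  omega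

theorem out_inj (e e' : EE) (h : out e = out e') : e = e' := by
  have h1 : paB e = paB e' := congrArg Sigma.fst h
  have h2 := congrArg Subtype.val h1
  simp only [paB, Prod.mk.injEq] at h2
  by_cases h0 : e.1.1 = 0
  · have h0' : e'.1.1 = 0 := by omega
    have h3 := e.2
    have h4 := e'.2
    rw [h0, zero_add, NN_one] at h3
    rw [h0', zero_add, NN_one] at h4
    exact Subtype.ext (Prod.ext (by omega) (by omega))
  · have h0' : e'.1.1 ≠ 0 := by omega
    have h5 := congrArg fc1 h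
    rw [fc1_out e h0, fc1_out e' h0'] at h5
    have h6 := h2.1
    have h7 : e.1.2 / NN e.1.1 = e'.1.2 / NN e'.1.1 := by omega
    have h8 : e.1.2 = e'.1.2 := by
      rw [← Nat.div_add_mod e.1.2 (NN e.1.1), ← Nat.div_add_mod e'.1.2 (NN e'.1.1), h7, h2.2, h6]
    exact Subtype.ext (Prod.ext h2.1 h8)

theorem inn_ne_out (e e' : EE) : inn e ≠ out e' := by
  intro h
  have h1 : chB e = paB e' := congrArg Sigma.fst h
  have h2 := congrArg (fun b : Blk => b.1.1) h1
  simp only [chB, paB] at h2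
  have h3 : e'.1.1 ≠ 0 := by omega
  have h5 := congrArg fc1 h
  rw [fc1_out e' h3] at h5
  have h6 : fc1 (inn e) = 0 := by
    unfold fc1 inn
    simp
  rw [h6, Nat.add_comm] at h5
  exact Nat.succ_ne_zero _ h5.symm

noncomputable def gateEmb : EE ⊕ EE ↪ XX where
  toFun := Sum.elim inn out
  inj' := by
    rintro (a | a) (b | b) h
    · exact congrArg _ (inn_inj a b h)
    · exact absurd h (inn_ne_out a b)
    · exact absurd h.symm (inn_ne_out b a)
    · exact congrArg _ (out_inj a b h)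

/-- the gate involution -/
noncomputable def tau : Equiv.Perm XX := Equiv.Perm.viaEmbedding (Equiv.sumComm EE EE) gateEmb

theorem tau_inn (e : EE) : tau (inn e) = out e :=
  Equiv.Perm.viaEmbedding_apply (Equiv.sumComm EE EE) gateEmb (Sum.inl e)

theorem tau_out (e : EE) : tau (out e) = inn e :=
  Equiv.Perm.viaEmbedding_apply (Equiv.sumComm EE EE) gateEmb (Sum.inr e)

theorem tau_other (x : XX) (h1 : ∀ e, x ≠ inn e) (h2 : ∀ e, x ≠ out e) : tau x = x := by
  apply Equiv.Perm.viaEmbedding_apply_of_notMem (Equiv.sumComm EE EE) gateEmb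
  rintro ⟨(e | e), he⟩
  · exact h1 e he.symm
  · exact h2 e he.symm

theorem tau_tau (x : XX) : tau (tau x) = x := by
  by_cases h1 : ∃ e, x = inn e
  · obtain ⟨e, rfl⟩ := h1
    rw [tau_inn, tau_out]
  by_cases h2 : ∃ e, x = out e
  · obtain ⟨e, rfl⟩ := h2
    rw [tau_out, tau_inn]
  push Not at h1 h2
  rw [tau_other x h1 h2, tau_other x h1 h2]

/-- the root point -/
noncomputable def rootB : Blk := ⟨(0, 0), by simp [NN_zero]⟩

noncomputable def x0 : XX := ⟨rootB, (0, 0)⟩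

/-- fibrewise maps -/
noncomputable def pU : Equiv.Perm XX := Equiv.sigmaCongrRight (fun b => eU (pp b))
noncomputable def pL : Equiv.Perm XX := Equiv.sigmaCongrRight (fun b => eL (pp b))
noncomputable def pT1 : Equiv.Perm XX := Equiv.sigmaCongrRight (fun b => Equiv.addRight ((1, 0) : YY b))
noncomputable def pT2 : Equiv.Perm XX := Equiv.sigmaCongrRight (fun b => Equiv.addRight ((0, 1) : YY b))

end Pool.Agent.TH862.EA
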