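import Pool.Agent.TH862.Weights

set_option autoImplicit false

namespace Pool.Agent.TH862.EA

open Finset
open Classical

/-- translation by a family -/
noncomputable def blkT (t : ∀ b, YY b) : Equiv.Perm XX := Equiv.sigmaCongrRight (fun b => Equiv.addRight (t b))

theorem blkT_apply (t : ∀ b, YY b) (b : Blk) (y : YY b) : blkT t ⟨b, y⟩ = ⟨b, y + t b⟩ := rfl

theorem blkT_symm_apply (t : ∀ b, YY b) (b : Blk) (y : YY b) : (blkT t).symm ⟨b, y⟩ = ⟨b, y - t b⟩ := by
  rw [Equiv.symm_apply_eq, blkT_apply, sub_add_cancel]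

/-- induced permutation on finite sets -/
noncomputable def fm (σ : Equiv.Perm XX) : Equiv.Perm (Finset XX) := Equiv.finsetCongr σ

theorem mem_fm (σ : Equiv.Perm XX) (A : Finset XX) (x : XX) : x ∈ fm σ A ↔ σ.symm x ∈ A := by
  unfold fm
  rw [Equiv.finsetCongr_apply, Finset.mem_map_equiv]

theorem mem_fm_blkT (t : ∀ b, YY b) (A : Finset XX) (b : Blk) (y : YY b) :
    (⟨b, y⟩ : XX) ∈ fm (blkT t) A ↔ (⟨b, y - t b⟩ : XX) ∈ A := by
  rw [mem_fm, blkT_symm_apply]

/-- points in a finite set of blocks -/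
noncomputable def XB (B : Finset Blk) : Finset XX := B.sigma (fun b => (univ : Finset (YY b)))

theorem mem_XB (B : Finset Blk) (x : XX) : x ∈ XB B ↔ x.1 ∈ B := by
  unfold XB; simp

/-- subsets of XB -/
noncomputable def OB (B : Finset Blk) : Finset (Finset XX) := (XB B).powerset

theorem mem_OB (B : Finset Blk) (A : Finset XX) : A ∈ OB B ↔ ∀ x ∈ A, x.1 ∈ B := by
  unfold OB
  rw [mem_powerset]
  constructor
  · intro h x hx; exact (mem_XB B x).mp (h hx)
  · intro h x hx; exact (mem_XB B x).mpr (h x hx)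

/-- permutations preserving blocks preserve `OB` -/
theorem fm_mem_OB (B : Finset Blk) (σ : Equiv.Perm XX) (hσ : ∀ x, (σ x).1 = x.1) (A : Finset XX) :
    A ∈ OB B ↔ fm σ A ∈ OB B := by
  rw [mem_OB, mem_OB]
  constructor
  · intro h x hx
    rw [mem_fm] at hx
    have h1 := h _ hx
    have h2 := hσ (σ.symm x)
    rw [Equiv.apply_symm_apply] at h2
    rw [h2]; exact h1
  · intro h x hx
    have h1 : σ x ∈ fm σ A := by rw [mem_fm, Equiv.symm_apply_apply]; exact hx
    have h2 := h _ h1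
    rw [hσ] at h2
    exact h2

theorem sum_OB_comp (B : Finset Blk) (σ : Equiv.Perm (Finset XX)) (hσ : ∀ A, A ∈ OB B ↔ σ A ∈ OB B)
    (F : Finset XX → ℝ) : ∑ A ∈ OB B, F (σ A) = ∑ A ∈ OB B, F A :=
  Finset.sum_equiv σ hσ (fun _ _ => rfl)

/-- lamp switch at the root -/
noncomputable def del : Equiv.Perm (Finset XX) :=
  Function.Involutive.toPerm (fun A => symmDiff A {x0}) (fun A => by
    show symmDiff (symmDiff A {x0}) {x0} = A
    rw [symmDiff_assoc, symmDiff_self]
    exact symmDiff_bot A)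

theorem mem_del (A : Finset XX) (x : XX) : x ∈ del A ↔ (x ∈ A ∧ x ≠ x0) ∨ (x = x0 ∧ x ∉ A) := by
  show x ∈ symmDiff A {x0} ↔ _
  rw [Finset.mem_symmDiff, mem_singleton]

/-- the weight ratio in a block -/
noncomputable def RB (b : Blk) (A : Finset XX) : ℝ := ∏ y : YY b, if (⟨b, y⟩ : XX) ∈ A then ratio ⟨b, y⟩ else 1

theorem RB_pos (b : Blk) (A : Finset XX) : 0 < RB b A := by
  unfold RB
  apply prod_pos
  intro y _
  split_ifs
  · exact ratio_pos _
  · norm_num

noncomputable def RR (A : Finset XX) : ℝ := ∏ x ∈ A, ratio x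

theorem RR_pos (A : Finset XX) : 0 < RR A := prod_pos fun x _ => ratio_pos x

theorem RR_eq (B : Finset Blk) (A : Finset XX) (hA : A ∈ OB B) : RR A = ∏ b ∈ B, RB b A := by
  unfold RR RB
  rw [← prod_sigma (s := B) (t := fun b => (univ : Finset (YY b)))
    (f := fun x : XX => if x ∈ A then ratio x else 1)]
  rw [← prod_filter]
  apply prod_congr _ (fun _ _ => rfl)
  ext x
  rw [mem_filter]
  constructor
  · intro hx
    exact ⟨(mem_XB B x).mpr ((mem_OB B A).mp hA x hx), hx⟩
  · intro hx; exact hx.2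

/-- one-block step -/
theorem block_step (B : Finset Blk) (b : Blk) (hb : b.1.1 ≠ 0) (W : Finset XX → ℝ)
    (hW0 : ∀ A, 0 ≤ W A) (hW : ∀ t : YY b, ∀ A ∈ OB B, W (fm (blkT (Pi.single b t)) A) = W A) :
    ∑ A ∈ OB B, RB b A * W A ≤ (1 + dd b ^ 2) * ∑ A ∈ OB B, W A := by
  have hp : (0 : ℝ) < (pp b : ℝ) ^ 2 := by
    have : (0 : ℝ) < pp b := by exact_mod_cast pp_pos b
    positivity
  have h1 : ∀ t : YY b, ∑ A ∈ OB B, RB b A * W A
      = ∑ A ∈ OB B, RB b (fm (blkT (Pi.single b t)) A) * W A := by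
    intro t
    rw [← sum_OB_comp B (fm (blkT (Pi.single b t))) (fm_mem_OB B _ (fun _ => rfl))]
    apply sum_congr rfl
    intro A hA
    rw [hW t A hA]
  have h2 : (pp b : ℝ) ^ 2 * ∑ A ∈ OB B, RB b A * W A
      = ∑ t : YY b, ∑ A ∈ OB B, RB b (fm (blkT (Pi.single b t)) A) * W A := by
    rw [← sum_congr rfl (fun t _ => h1 t), sum_const, card_univ, Fintype.card_prod, ZMod.card,
      nsmul_eq_mul]
    push_cast
    ring
  have h3 : ∑ t : YY b, ∑ A ∈ OB B, RB b (fm (blkT (Pi.single b t)) A) * W A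
      ≤ ∑ A ∈ OB B, (pp b : ℝ) ^ 2 * (1 + dd b ^ 2) * W A := by
    rw [sum_comm]
    apply sum_le_sum
    intro A _
    rw [← sum_mul]
    apply mul_le_mul_of_nonneg_right _ (hW0 A)
    have h4 := block_average b hb (fun y => (⟨b, y⟩ : XX) ∈ A)
    refine le_trans (le_of_eq ?_) h4
    apply sum_congr rfl
    intro t _
    unfold RB
    apply prod_congr rfl
    intro y _
    have hiff : (⟨b, y⟩ : XX) ∈ fm (blkT (Pi.single b t)) A ↔ (⟨b, y - t⟩ : XX) ∈ A := by
      rw [mem_fm_blkT, Pi.single_eq_same]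
    by_cases h : (⟨b, y - t⟩ : XX) ∈ A
    · rw [if_pos h, if_pos (hiff.mpr h)]
    · rw [if_neg h, if_neg (fun h' => h (hiff.mp h'))]
  rw [← h2, ← mul_sum, mul_assoc] at h3
  exact le_of_mul_le_mul_left h3 hp

theorem RB_other (b b' : Blk) (h : b' ≠ b) (t : YY b) (A : Finset XX) :
    RB b' (fm (blkT (Pi.single b t)) A) = RB b' A := by
  unfold RB
  apply prod_congr rfl
  intro y _
  simp only [mem_fm_blkT, Pi.single_eq_of_ne h, sub_zero]

theorem RB_del (b : Blk) (h : b.1.1 ≠ 0) (A : Finset XX) : RB b (del A) = RB b A := by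
  unfold RB
  apply prod_congr rfl
  intro y _
  have h1 : (⟨b, y⟩ : XX) ≠ x0 := by
    intro h2
    have h3 : b = rootB := congrArg Sigma.fst h2
    rw [h3] at h
    exact h rfl
  simp only [mem_del, h1, ne_eq, not_false_eq_true, and_true, false_and, or_false]

/-- product over nonroot blocks -/
theorem many_blocks (B : Finset Blk) (F : Finset Blk) (hF : F ⊆ B) (hF0 : ∀ b ∈ F, b.1.1 ≠ 0)
    (W : Finset XX → ℝ) (hW0 : ∀ A, 0 ≤ W A)
    (hW : ∀ b ∈ B, ∀ t : YY b, ∀ A ∈ OB B, W (fm (blkT (Pi.single b t)) A) = W A) :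
    ∑ A ∈ OB B, (∏ b ∈ F, RB b A) * W A ≤ (∏ b ∈ F, (1 + dd b ^ 2)) * ∑ A ∈ OB B, W A := by
  induction F using Finset.induction_on with
  | empty => simp
  | insert b F hbF ih =>
    have ih' := ih (fun x hx => hF (mem_insert_of_mem hx)) (fun x hx => hF0 x (mem_insert_of_mem hx))
    have h1 := block_step B b (hF0 b (mem_insert_self _ _)) (fun A => (∏ b ∈ F, RB b A) * W A)
      (fun A => mul_nonneg (prod_nonneg fun x _ => (RB_pos x A).le) (hW0 A)) (by
        intro t A hA
        rw [hW b (hF (mem_insert_self _ _)) t A hA]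
        congr 1
        apply prod_congr rfl
        intro b' hb'
        apply RB_other
        rintro rfl
        exact hbF hb')
    calc ∑ A ∈ OB B, (∏ b ∈ insert b F, RB b A) * W A
        = ∑ A ∈ OB B, RB b A * ((∏ b ∈ F, RB b A) * W A) := by
          apply sum_congr rfl
          intro A _
          rw [prod_insert hbF, mul_assoc]
      _ ≤ (1 + dd b ^ 2) * ∑ A ∈ OB B, (∏ b ∈ F, RB b A) * W A := h1
      _ ≤ (1 + dd b ^ 2) * ((∏ b ∈ F, (1 + dd b ^ 2)) * ∑ A ∈ OB B, W A) :=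
          mul_le_mul_of_nonneg_left ih' (by positivity)
      _ = _ := by rw [prod_insert hbF, mul_assoc]

/-- the root factor -/
theorem ratio_x0 : ratio x0 = wt 1 / wt 0 := by
  have hlt : 0 < NN (0 + 1) := NN_pos _
  set e : EE := ⟨(0, 0), hlt⟩ with he
  have h1 : out e = x0 := by
    have h2 : paB e = rootB := Blk_root_unique _ _ rfl rfl
    rw [mk_out rootB e h2]
    have h3 : Subsingleton (ZMod (pp rootB)) := by
      rw [pp_root rootB rfl]
      infer_instance
    unfold x0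
    congr 1
    exact Prod.ext (Subsingleton.elim _ _) rfl
  rw [← h1]
  unfold ratio
  rw [tau_out]
  rfl

theorem yy_root (y : YY rootB) : y = 0 := by
  have h3 : Subsingleton (ZMod (pp rootB)) := by
    rw [pp_root rootB rfl]
    infer_instance
  exact Prod.ext (Subsingleton.elim _ _) (Subsingleton.elim _ _)

theorem RB_root (A : Finset XX) : RB rootB A = if x0 ∈ A then wt 1 / wt 0 else 1 := by
  unfold RB
  have h1 : (univ : Finset (YY rootB)) = {0} := by
    ext y; simp [yy_root y]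
  rw [h1, prod_singleton]
  have h2 : (⟨rootB, 0⟩ : XX) = x0 := rfl
  rw [h2, ratio_x0]

theorem root_step (B : Finset Blk) (hB : rootB ∈ B) (W : Finset XX → ℝ)
    (hW : ∀ A ∈ OB B, W (del A) = W A) :
    ∑ A ∈ OB B, RB rootB A * W A = (1 - kap / (2 * wt 0)) * ∑ A ∈ OB B, W A := by
  have hdel : ∀ A, A ∈ OB B ↔ del A ∈ OB B := by
    have h1 : ∀ A, A ∈ OB B → del A ∈ OB B := by
      intro A hA
      rw [mem_OB] at hA ⊢
      intro x hx
      rw [mem_del] at hx
      rcases hx with ⟨h, _⟩ | ⟨h, _⟩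
      · exact hA x h
      · rw [h]; exact hB
    intro A
    refine ⟨h1 A, fun h => ?_⟩
    have h2 := h1 _ h
    have h3 : del (del A) = A := by
      show symmDiff (symmDiff A {x0}) {x0} = A
      rw [symmDiff_assoc, symmDiff_self]
      exact symmDiff_bot A
    rw [h3] at h2
    exact h2
  have h1 := sum_OB_comp B del hdel (fun A => RB rootB A * W A)
  have h2 : 2 * ∑ A ∈ OB B, RB rootB A * W A = ∑ A ∈ OB B, (1 + wt 1 / wt 0) * W A := by
    rw [two_mul]
    nth_rewrite 1 [← h1]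
    rw [← sum_add_distrib]
    apply sum_congr rfl
    intro A hA
    rw [hW A hA, RB_root, RB_root]
    by_cases h : x0 ∈ A
    · have h' : x0 ∉ del A := by rw [mem_del]; simp [h]
      rw [if_pos h, if_neg h']
      ring
    · have h' : x0 ∈ del A := by rw [mem_del]; simp [h]
      rw [if_neg h, if_pos h']
      ring
  rw [← mul_sum] at h2
  have h3 : 1 + wt 1 / wt 0 = 2 * (1 - kap / (2 * wt 0)) := by
    have h4 := wt_succ 0
    rw [zero_add, NN_one] at h4
    have h5 : wt 1 = wt 0 - kap := by push_cast at h4; linarith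
    rw [h5]
    have := (wt_pos 0).ne'
    field_simp
    ring
  rw [h3] at h2
  linarith

/-- the spectral constant -/
noncomputable def rho : ℝ := (1 - kap / (2 * wt 0)) * Real.exp (kap ^ 2 * rr 0)

theorem rho_lt_one : rho < 1 := by
  have h1 := kap_pos
  have h2 := kap_le
  have h3 := kap_mul
  have h4 := wt_le 0
  have h5 := wt_pos 0
  have h6 : kap ^ 2 * rr 0 ≤ kap / 4 := by nlinarith
  have h7 : Real.exp (kap ^ 2 * rr 0) ≤ 1 + kap / 4 + (kap / 4) ^ 2 := by
    have h8 : Real.exp (kap ^ 2 * rr 0) ≤ Real.exp (kap / 4) := Real.exp_le_exp.mpr h6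
    have h9 : |kap / 4| ≤ 1 := by rw [abs_of_pos (by positivity)]; linarith
    have h10 := Real.abs_exp_sub_one_sub_id_le h9
    have h11 := le_of_abs_le h10
    linarith
  have h8 : 2 * kap / 5 ≤ kap / (2 * wt 0) := by
    rw [div_le_div_iff₀ (by norm_num) (by positivity)]
    nlinarith
  have h9 : 0 ≤ 1 - kap / (2 * wt 0) := by
    have h10 : kap / (2 * wt 0) ≤ kap := by
      apply div_le_self h1.le
      have := one_le_wt 0
      linarith
    linarith
  unfold rho
  calc (1 - kap / (2 * wt 0)) * Real.exp (kap ^ 2 * rr 0)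
      ≤ (1 - 2 * kap / 5) * (1 + kap / 4 + (kap / 4) ^ 2) := by
        apply mul_le_mul (by linarith) h7 (Real.exp_pos _).le (by linarith)
    _ < 1 := by nlinarith [mul_pos h1 h1, mul_pos (mul_pos h1 h1) h1]

theorem rho_pos : 0 < rho := by
  unfold rho
  have h1 := kap_pos
  have h2 := kap_le
  have h10 : kap / (2 * wt 0) ≤ kap := by
    apply div_le_self h1.le
    have := one_le_wt 0
    linarith
  have := Real.exp_pos (kap ^ 2 * rr 0)
  apply mul_pos _ this
  linarith

/-- invariance of a function under independent translations and the root lamp -/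
def Inv (B : Finset Blk) (g : Finset XX → ℝ) : Prop :=
  (∀ b ∈ B, ∀ t : YY b, ∀ A ∈ OB B, g (fm (blkT (Pi.single b t)) A) = g A) ∧
  (∀ A ∈ OB B, g (del A) = g A)

theorem weighted (B : Finset Blk) (hB : rootB ∈ B) (g : Finset XX → ℝ) (hg : Inv B g) :
    ∑ A ∈ OB B, RR A * g A ^ 2 ≤ rho * ∑ A ∈ OB B, g A ^ 2 := by
  set F := B.erase rootB with hF
  have hF0 : ∀ b ∈ F, b.1.1 ≠ 0 := by
    intro b hb h
    rw [hF, mem_erase] at hb
    exact hb.1 (Blk_root_unique _ _ h rfl)
  have hFB : F ⊆ B := erase_subset _ _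
  have h1 : ∑ A ∈ OB B, RR A * g A ^ 2
      = ∑ A ∈ OB B, RB rootB A * ((∏ b ∈ F, RB b A) * g A ^ 2) := by
    apply sum_congr rfl
    intro A hA
    rw [RR_eq B A hA, ← mul_prod_erase B _ hB, mul_assoc]
  rw [h1, root_step B hB (fun A => (∏ b ∈ F, RB b A) * g A ^ 2) (by
    intro A hA
    rw [hg.2 A hA]
    congr 1
    apply prod_congr rfl
    intro b hb
    exact RB_del b (hF0 b hb) A)]
  have h2 := many_blocks B F hFB hF0 (fun A => g A ^ 2) (fun A => by positivity) (by
    intro b hb t A hA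
    rw [hg.1 b hb t A hA])
  have h3 : ∏ b ∈ F, (1 + dd b ^ 2) ≤ Real.exp (kap ^ 2 * rr 0) := by
    calc ∏ b ∈ F, (1 + dd b ^ 2) ≤ ∏ b ∈ F, Real.exp (dd b ^ 2) := by
          apply prod_le_prod
          · intros; positivity
          · intro b _
            have := Real.add_one_le_exp (dd b ^ 2)
            linarith
      _ = Real.exp (∑ b ∈ F, dd b ^ 2) := (Real.exp_sum _ _).symm
      _ ≤ Real.exp (kap ^ 2 * rr 0) := Real.exp_le_exp.mpr (sum_dd_sq F hF0)
  have h9 : 0 ≤ 1 - kap / (2 * wt 0) := by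
    have h10 : kap / (2 * wt 0) ≤ kap := by
      apply div_le_self kap_pos.le
      have := one_le_wt 0
      linarith
    have := kap_le
    linarith
  have h4 : 0 ≤ ∑ A ∈ OB B, g A ^ 2 := sum_nonneg fun _ _ => by positivity
  unfold rho
  rw [mul_assoc]
  apply mul_le_mul_of_nonneg_left _ h9
  exact h2.trans (mul_le_mul_of_nonneg_right h3 h4)

theorem RR_tau (A : Finset XX) : RR A * RR (fm tau A) = 1 := by
  unfold RR
  have h1 : ∏ x ∈ fm tau A, ratio x = ∏ x ∈ A, ratio (tau x) := by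
    unfold fm
    rw [Equiv.finsetCongr_apply, prod_map]
    rfl
  rw [h1, ← prod_mul_distrib]
  exact prod_eq_one fun x _ => ratio_mul x

theorem sum_comp_le (B : Finset Blk) (σ : Equiv.Perm (Finset XX)) (F : Finset XX → ℝ) (hF0 : ∀ A, 0 ≤ F A)
    (hF : ∀ A, A ∉ OB B → F A = 0) : ∑ A ∈ OB B, F (σ A) ≤ ∑ A ∈ OB B, F A := by
  have h1 : ∑ A ∈ OB B, F (σ A) = ∑ A ∈ (OB B).map σ.toEmbedding, F A := by
    rw [sum_map]; rfl
  rw [h1]
  calc ∑ A ∈ (OB B).map σ.toEmbedding, F A
      = ∑ A ∈ (OB B).map σ.toEmbedding with A ∈ OB B, F A := by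
        rw [sum_filter]
        apply sum_congr rfl
        intro A _
        split_ifs with h
        · rfl
        · exact hF A h
    _ ≤ ∑ A ∈ OB B, F A := by
        apply sum_le_sum_of_subset_of_nonneg
        · intro A hA
          exact (mem_filter.mp hA).2
        · intro A _ _
          exact hF0 A

/-- the Schur estimate -/
theorem schur (B : Finset Blk) (hB : rootB ∈ B) (g : Finset XX → ℝ) (hg : Inv B g)
    (hsupp : ∀ A, A ∉ OB B → g A = 0) :
    ∑ A ∈ OB B, g (fm tau A) * g A ≤ rho * ∑ A ∈ OB B, g A ^ 2 := by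
  refine le_trans ?_ (weighted B hB g hg)
  have h1 : ∀ A ∈ OB B, g (fm tau A) * g A ≤
      1 / 2 * (RR A * g A ^ 2) + 1 / 2 * (RR (fm tau A) * g (fm tau A) ^ 2) := by
    intro A _
    have h2 := RR_tau A
    have h3 := RR_pos A
    have h4 : RR (fm tau A) = (RR A)⁻¹ := by
      field_simp
      linarith
    rw [h4]
    have h5 : 0 ≤ (RR A)⁻¹ * (RR A * g A - g (fm tau A)) ^ 2 := by positivity
    have h6 : (RR A)⁻¹ * (RR A * g A - g (fm tau A)) ^ 2
        = RR A * g A ^ 2 + (RR A)⁻¹ * g (fm tau A) ^ 2 - 2 * (g (fm tau A) * g A) := by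
      field_simp
      ring
    linarith
  calc ∑ A ∈ OB B, g (fm tau A) * g A
      ≤ ∑ A ∈ OB B, (1 / 2 * (RR A * g A ^ 2) + 1 / 2 * (RR (fm tau A) * g (fm tau A) ^ 2)) :=
        sum_le_sum h1
    _ = 1 / 2 * ∑ A ∈ OB B, RR A * g A ^ 2 + 1 / 2 * ∑ A ∈ OB B, RR (fm tau A) * g (fm tau A) ^ 2 := by
        rw [sum_add_distrib, mul_sum, mul_sum]
    _ ≤ 1 / 2 * ∑ A ∈ OB B, RR A * g A ^ 2 + 1 / 2 * ∑ A ∈ OB B, RR A * g A ^ 2 := by
        have h7 := sum_comp_le B (fm tau) (fun A => RR A * g A ^ 2)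
          (fun A => mul_nonneg (RR_pos A).le (sq_nonneg _)) (by
            intro A hA
            rw [hsupp A hA]
            ring)
        linarith
    _ = ∑ A ∈ OB B, RR A * g A ^ 2 := by ring

end Pool.Agent.TH862.EA
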