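import Pool.Agent.TH862.Graph

set_option autoImplicit false

namespace Pool.Agent.TH862.EA

open Finset

theorem NN_cast_pos (l : ℕ) : (0 : ℝ) < NN l := by exact_mod_cast NN_pos l

theorem summable_inv : Summable (fun m : ℕ => 1 / (NN m : ℝ)) := by
  rw [← summable_nat_add_iff 1]
  have h1 : Summable (fun m : ℕ => 4 * (1 / ((m + 1 : ℕ) : ℝ) ^ 2)) := by
    apply Summable.mul_left
    exact (summable_nat_add_iff 1).mpr (Real.summable_one_div_nat_pow.mpr (by norm_num))
  refine Summable.of_nonneg_of_le (fun m => by positivity) (fun m => ?_) h1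
  have h2 : ((m + 1 : ℕ) : ℝ) ^ 2 ≤ 4 * NN (m + 1) := by exact_mod_cast le_NN (m + 1)
  have h3 : (0 : ℝ) < ((m + 1 : ℕ) : ℝ) ^ 2 := by positivity
  rw [mul_one_div, div_le_div_iff₀ (NN_cast_pos _) h3]
  linarith

/-- tail sums -/
noncomputable def rr (l : ℕ) : ℝ := ∑' m : ℕ, 1 / (NN (m + (l + 1)) : ℝ)

theorem rr_nonneg (l : ℕ) : 0 ≤ rr l := tsum_nonneg fun m => by positivity

theorem rr_succ (l : ℕ) : rr l = 1 / (NN (l + 1) : ℝ) + rr (l + 1) := by
  unfold rr
  have h1 : Summable (fun m : ℕ => 1 / (NN (m + (l + 1)) : ℝ)) := (summable_nat_add_iff (l + 1)).mpr summable_inv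
  rw [h1.tsum_eq_zero_add]
  simp only [zero_add]
  congr 1
  apply tsum_congr
  intro m
  congr 3
  omega

theorem rr_le (l : ℕ) : rr l ≤ rr 0 := by
  induction l with
  | zero => exact le_refl _
  | succ l ih =>
    have h1 := rr_succ l
    have h2 : 0 < 1 / (NN (l + 1) : ℝ) := by have := NN_cast_pos (l + 1); positivity
    linarith

theorem sum_inv_le (n : ℕ) : ∑ l ∈ Ico 1 (n + 1), 1 / (NN l : ℝ) ≤ rr 0 := by
  rw [Finset.sum_Ico_eq_sum_range]
  have h1 : Summable (fun m : ℕ => 1 / (NN (m + (0 + 1)) : ℝ)) := (summable_nat_add_iff (0 + 1)).mpr summable_inv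
  have h2 := h1.sum_le_tsum (range (n + 1 - 1)) (fun i _ => by positivity)
  refine le_trans (le_of_eq ?_) h2
  apply sum_congr rfl
  intro m _
  congr 3
  omega

/-- the parameter κ -/
noncomputable def kap : ℝ := 1 / (4 * (rr 0 + 1))

theorem kap_pos : 0 < kap := by
  have := rr_nonneg 0
  unfold kap; positivity

theorem kap_le : kap ≤ 1 / 4 := by
  have := rr_nonneg 0
  unfold kap
  apply one_div_le_one_div_of_le (by norm_num)
  linarith

theorem kap_mul : kap * rr 0 ≤ 1 / 4 := by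
  have := rr_nonneg 0
  unfold kap
  rw [one_div_mul_eq_div, div_le_div_iff₀ (by positivity) (by norm_num)]
  linarith

/-- weights -/
noncomputable def wt (l : ℕ) : ℝ := 1 + kap * rr l

theorem one_le_wt (l : ℕ) : 1 ≤ wt l := by
  unfold wt
  have := mul_nonneg kap_pos.le (rr_nonneg l)
  linarith

theorem wt_pos (l : ℕ) : 0 < wt l := lt_of_lt_of_le one_pos (one_le_wt l)

theorem wt_le (l : ℕ) : wt l ≤ 5 / 4 := by
  unfold wt
  have h1 := mul_le_mul_of_nonneg_left (rr_le l) kap_pos.le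
  have h2 := kap_mul
  linarith

theorem wt_succ (l : ℕ) : wt l = wt (l + 1) + kap / NN (l + 1) := by
  unfold wt
  rw [rr_succ l]
  ring

/-- ratio of weights at a point -/
noncomputable def ratio (x : XX) : ℝ := wt (lev (tau x)) / wt (lev x)

theorem ratio_pos (x : XX) : 0 < ratio x := div_pos (wt_pos _) (wt_pos _)

theorem ratio_mul (x : XX) : ratio x * ratio (tau x) = 1 := by
  unfold ratio
  rw [tau_tau]
  have := (wt_pos (lev x)).ne'
  have := (wt_pos (lev (tau x))).ne'
  field_simp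

theorem mk_out (b : Blk) (e : EE) (h : paB e = b) :
    out e = ⟨b, (((1 + e.1.2 / NN e.1.1 : ℕ) : ZMod (pp b)), 0)⟩ := by subst h; rfl

theorem mk_inn (b : Blk) (e : EE) (h : chB e = b) : inn e = ⟨b, (0, 0)⟩ := by subst h; rfl

/-- the number of children -/
def nch (l : ℕ) : ℕ := NN (l + 1) / NN l

theorem nch_mul (l : ℕ) : nch l * NN l = NN (l + 1) := Nat.div_mul_cancel (NN_dvd l)

theorem nch_le (l : ℕ) : nch l ≤ 4 := by
  unfold nch
  exact Nat.div_le_of_le_mul (by rw [mul_comm]; exact NN_succ_le l)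

/-- positions of the outward gates -/
noncomputable def outF (b : Blk) : Finset (YY b) :=
  (range (nch b.1.1)).image (fun c => (((1 + c : ℕ) : ZMod (pp b)), (0 : ZMod (pp b))))

theorem out_inj' (b : Blk) (hb : b.1.1 ≠ 0) :
    Set.InjOn (fun c : ℕ => (((1 + c : ℕ) : ZMod (pp b)), (0 : ZMod (pp b)))) (range (nch b.1.1) : Set ℕ) := by
  intro c hc d hd h
  rw [coe_range, Set.mem_Iio] at hc hd
  have h1 := nch_le b.1.1
  have h2 := five_le_pp b hb
  have h3 := congrArg (fun y : YY b => y.1.val) h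
  simp only at h3
  rw [ZMod.val_cast_of_lt (by omega), ZMod.val_cast_of_lt (by omega)] at h3
  omega

theorem card_outF (b : Blk) (hb : b.1.1 ≠ 0) : (outF b).card = nch b.1.1 := by
  unfold outF
  rw [card_image_of_injOn (out_inj' b hb), card_range]

theorem zero_notMem_outF (b : Blk) (hb : b.1.1 ≠ 0) : (0 : YY b) ∉ outF b := by
  unfold outF
  rw [mem_image]
  rintro ⟨c, hc, h⟩
  rw [mem_range] at hc
  have h1 := nch_le b.1.1
  have h2 := five_le_pp b hb
  have h3 := congrArg (fun y : YY b => y.1.val) h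
  simp only at h3
  rw [ZMod.val_cast_of_lt (by omega)] at h3
  simp at h3

/-- an element of `outF` is an outward gate -/
theorem ratio_outF (b : Blk) (y : YY b) (hy : y ∈ outF b) :
    ratio ⟨b, y⟩ = wt (b.1.1 + 1) / wt b.1.1 := by
  unfold outF at hy
  rw [mem_image] at hy
  obtain ⟨c, hc, rfl⟩ := hy
  rw [mem_range] at hc
  have hlt : b.1.2 + c * NN b.1.1 < NN (b.1.1 + 1) := by
    have h1 := nch_mul b.1.1
    have h2 := b.2
    have h3 : (c + 1) * NN b.1.1 ≤ nch b.1.1 * NN b.1.1 := Nat.mul_le_mul_right _ hc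
    rw [add_mul, one_mul] at h3
    omega
  set e : EE := ⟨(b.1.1, b.1.2 + c * NN b.1.1), hlt⟩ with he
  have h1 : paB e = b := by
    apply Subtype.ext
    apply Prod.ext
    · rfl
    · show (b.1.2 + c * NN b.1.1) % NN b.1.1 = b.1.2
      rw [Nat.add_mul_mod_self_right]
      exact Nat.mod_eq_of_lt b.2
  have h2 : e.1.2 / NN e.1.1 = c := by
    show (b.1.2 + c * NN b.1.1) / NN b.1.1 = c
    rw [Nat.add_mul_div_right _ _ (NN_pos _), Nat.div_eq_of_lt b.2, zero_add]
  have h3 := mk_out b e h1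
  rw [h2] at h3
  rw [← h3]
  unfold ratio
  rw [tau_out]
  rfl

theorem ratio_zero (b : Blk) (hb : b.1.1 ≠ 0) :
    ratio ⟨b, 0⟩ = wt (b.1.1 - 1) / wt b.1.1 := by
  have hlt : b.1.2 < NN ((b.1.1 - 1) + 1) := by
    have : (b.1.1 - 1) + 1 = b.1.1 := by omega
    rw [this]; exact b.2
  set e : EE := ⟨(b.1.1 - 1, b.1.2), hlt⟩ with he
  have h1 : chB e = b := by
    apply Subtype.ext
    apply Prod.ext
    · show (b.1.1 - 1) + 1 = b.1.1
      omega
    · rfl
  have h3 := mk_inn b e h1
  have h4 : (⟨b, 0⟩ : XX) = ⟨b, (0, 0)⟩ := rfl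
  rw [h4, ← h3]
  unfold ratio
  rw [tau_inn]
  have h5 : lev (inn e) = b.1.1 := by
    rw [h3]; rfl
  rw [h5]
  rfl

theorem ratio_else (b : Blk) (y : YY b) (h0 : y ≠ 0) (h1 : y ∉ outF b) : ratio ⟨b, y⟩ = 1 := by
  have h2 : tau ⟨b, y⟩ = ⟨b, y⟩ := by
    apply tau_other
    · intro e he
      obtain ⟨h3, h4⟩ := Sigma.mk.inj_iff.mp he
      subst h3
      apply h0
      exact eq_of_heq h4
    · intro e he
      obtain ⟨h3, h4⟩ := Sigma.mk.inj_iff.mp he
      subst h3
      apply h1
      rw [eq_of_heq h4]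
      unfold outF
      rw [mem_image]
      refine ⟨e.1.2 / NN e.1.1, ?_, rfl⟩
      rw [mem_range]
      exact Nat.div_lt_div_of_lt_of_dvd (NN_dvd _) e.2
  unfold ratio
  rw [h2]
  exact div_self (wt_pos _).ne'

/-- excess weight -/
noncomputable def ww (b : Blk) (y : YY b) : ℝ := ratio ⟨b, y⟩ - 1

theorem ww_outF (b : Blk) (y : YY b) (hy : y ∈ outF b) :
    ww b y = - (kap / NN (b.1.1 + 1) / wt b.1.1) := by
  unfold ww
  rw [ratio_outF b y hy]
  have h1 := wt_succ b.1.1
  have h2 := (wt_pos b.1.1).ne'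
  have h3 : wt (b.1.1 + 1) = wt b.1.1 - kap / NN (b.1.1 + 1) := by linarith
  rw [h3]
  field_simp
  ring

theorem ww_zero (b : Blk) (hb : b.1.1 ≠ 0) :
    ww b 0 = kap / NN b.1.1 / wt b.1.1 := by
  unfold ww
  rw [ratio_zero b hb]
  have h1 := wt_succ (b.1.1 - 1)
  have h0 : b.1.1 - 1 + 1 = b.1.1 := by omega
  rw [h0] at h1
  have h2 := (wt_pos b.1.1).ne'
  rw [h1]
  field_simp
  ring

theorem ww_else (b : Blk) (y : YY b) (h0 : y ≠ 0) (h1 : y ∉ outF b) : ww b y = 0 := by
  unfold ww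
  rw [ratio_else b y h0 h1, sub_self]

theorem sum_ww (b : Blk) (hb : b.1.1 ≠ 0) : ∑ y : YY b, ww b y = 0 := by
  have h1 : ∑ y : YY b, ww b y = ∑ y ∈ insert 0 (outF b), ww b y := by
    symm
    apply sum_subset (subset_univ _)
    intro y _ hy
    rw [mem_insert, not_or] at hy
    exact ww_else b y hy.1 hy.2
  rw [h1, sum_insert (zero_notMem_outF b hb), ww_zero b hb,
    sum_congr rfl (fun y hy => ww_outF b y hy), sum_const, card_outF b hb, nsmul_eq_mul]
  have h2 : (nch b.1.1 : ℝ) * NN b.1.1 = NN (b.1.1 + 1) := by exact_mod_cast nch_mul b.1.1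
  have h3 := NN_cast_pos b.1.1
  have h4 := NN_cast_pos (b.1.1 + 1)
  have h5 := wt_pos b.1.1
  rw [← h2] at h4 ⊢
  have h6 : (nch b.1.1 : ℝ) ≠ 0 := by
    intro h; rw [h, zero_mul] at h4; exact lt_irrefl _ h4
  field_simp
  ring

theorem ww_nonpos (b : Blk) (y : YY b) (hy : y ≠ 0) : ww b y ≤ 0 := by
  by_cases h : y ∈ outF b
  · rw [ww_outF b y h]
    have h4 := NN_cast_pos (b.1.1 + 1)
    have h5 := wt_pos b.1.1
    have h6 := kap_pos
    have : 0 < kap / NN (b.1.1 + 1) / wt b.1.1 := by positivity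
    linarith
  · rw [ww_else b y hy h]

/-- the size of the excess in a block -/
noncomputable def dd (b : Blk) : ℝ := kap / NN b.1.1

theorem dd_pos (b : Blk) : 0 < dd b := by
  have h4 := NN_cast_pos b.1.1
  have h6 := kap_pos
  unfold dd; positivity

theorem dd_le_one (b : Blk) : dd b ≤ 1 := by
  unfold dd
  rw [div_le_one (NN_cast_pos _)]
  have h1 : (1 : ℝ) ≤ NN b.1.1 := by exact_mod_cast NN_pos b.1.1
  have h2 := kap_le
  linarith

theorem sum_ww_le (b : Blk) (hb : b.1.1 ≠ 0) (A : Finset (YY b)) : ∑ y ∈ A, ww b y ≤ dd b := by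
  have h1 : ww b 0 ≤ dd b := by
    rw [ww_zero b hb]
    unfold dd
    apply div_le_self
    · have h4 := NN_cast_pos b.1.1
      have h6 := kap_pos
      positivity
    · exact one_le_wt _
  by_cases h0 : (0 : YY b) ∈ A
  · rw [← add_sum_erase A _ h0]
    have h2 : ∑ y ∈ A.erase 0, ww b y ≤ 0 := by
      apply sum_nonpos
      intro y hy
      exact ww_nonpos b y (ne_of_mem_erase hy)
    linarith
  · have h2 : ∑ y ∈ A, ww b y ≤ 0 := by
      apply sum_nonpos
      intro y hy
      apply ww_nonpos b y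
      rintro rfl
      exact h0 hy
    have := dd_pos b
    linarith

theorem abs_sum_ww (b : Blk) (hb : b.1.1 ≠ 0) (A : Finset (YY b)) : |∑ y ∈ A, ww b y| ≤ dd b := by
  classical
  rw [abs_le]
  refine ⟨?_, sum_ww_le b hb A⟩
  have h1 := sum_ww_le b hb Aᶜ
  have h2 := sum_add_sum_compl A (ww b)
  rw [sum_ww b hb] at h2
  linarith

open Classical in
/-- the averaging estimate in a single block -/
theorem block_average (b : Blk) (hb : b.1.1 ≠ 0) (P : YY b → Prop) :
    ∑ t : YY b, ∏ y : YY b, (if P (y - t) then ratio ⟨b, y⟩ else 1)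
      ≤ (pp b : ℝ) ^ 2 * (1 + dd b ^ 2) := by
  have h1 : ∀ t : YY b, ∏ y : YY b, (if P (y - t) then ratio ⟨b, y⟩ else 1)
      ≤ 1 + ∑ y ∈ univ.filter (fun y => P (y - t)), ww b y + dd b ^ 2 := by
    intro t
    set S := ∑ y ∈ univ.filter (fun y => P (y - t)), ww b y with hS
    have h2 : ∏ y : YY b, (if P (y - t) then ratio ⟨b, y⟩ else 1) ≤ Real.exp S := by
      rw [hS, sum_filter, Real.exp_sum]
      apply prod_le_prod
      · intro y _
        split_ifs
        · exact (ratio_pos _).le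
        · norm_num
      · intro y _
        split_ifs
        · have := Real.add_one_le_exp (ww b y)
          unfold ww at this ⊢
          linarith
        · rw [Real.exp_zero]
    have h3 := abs_sum_ww b hb (univ.filter (fun y => P (y - t)))
    rw [← hS] at h3
    have h4 := Real.abs_exp_sub_one_sub_id_le (h3.trans (dd_le_one b))
    have h5 := le_of_abs_le h4
    have h6 : S ^ 2 ≤ dd b ^ 2 := by
      rw [← sq_abs S]
      exact pow_le_pow_left₀ (abs_nonneg _) h3 2
    linarith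
  have h2 : ∑ t : YY b, ∑ y ∈ univ.filter (fun y => P (y - t)), ww b y = 0 := by
    simp only [sum_filter]
    rw [sum_comm]
    have h3 : ∀ y : YY b, ∑ t : YY b, (if P (y - t) then ww b y else 0)
        = ww b y * ∑ t : YY b, (if P t then 1 else 0) := by
      intro y
      rw [← Equiv.sum_comp (Equiv.subLeft y) (fun t => if P t then (1 : ℝ) else 0), mul_sum]
      apply sum_congr rfl
      intro t _
      simp only [Equiv.subLeft_apply, mul_ite, mul_one, mul_zero]
    simp only [h3]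
    rw [← sum_mul, sum_ww b hb, zero_mul]
  calc ∑ t : YY b, ∏ y : YY b, (if P (y - t) then ratio ⟨b, y⟩ else 1)
      ≤ ∑ t : YY b, (1 + ∑ y ∈ univ.filter (fun y => P (y - t)), ww b y + dd b ^ 2) :=
        sum_le_sum fun t _ => h1 t
    _ = (pp b : ℝ) ^ 2 * (1 + dd b ^ 2) := by
        rw [sum_add_distrib, sum_add_distrib, h2, sum_const, sum_const, card_univ,
          Fintype.card_prod, ZMod.card, nsmul_eq_mul, nsmul_eq_mul]
        push_cast
        ring

/-- the total squared excess -/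
theorem sum_dd_sq (F : Finset Blk) (hF : ∀ b ∈ F, b.1.1 ≠ 0) : ∑ b ∈ F, dd b ^ 2 ≤ kap ^ 2 * rr 0 := by
  set n := F.sup (fun b => b.1.1) with hn
  have h1 : ∀ b ∈ F, b.1.1 ∈ Ico 1 (n + 1) := by
    intro b hb
    rw [mem_Ico]
    have h2 := hF b hb
    have h3 : b.1.1 ≤ n := le_sup (f := fun b : Blk => b.1.1) hb
    omega
  rw [← sum_fiberwise_of_maps_to h1]
  calc ∑ l ∈ Ico 1 (n + 1), ∑ b ∈ F with b.1.1 = l, dd b ^ 2
      ≤ ∑ l ∈ Ico 1 (n + 1), kap ^ 2 * (1 / (NN l : ℝ)) := by
        apply sum_le_sum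
        intro l _
        have h2 : ∑ b ∈ F with b.1.1 = l, dd b ^ 2 = ((F.filter (fun b => b.1.1 = l)).card : ℝ) * (kap / NN l) ^ 2 := by
          rw [← nsmul_eq_mul, ← sum_const]
          apply sum_congr rfl
          intro b hb
          rw [mem_filter] at hb
          unfold dd
          rw [hb.2]
        have h3 : (F.filter (fun b => b.1.1 = l)).card ≤ NN l := by
          rw [← card_range (NN l)]
          apply card_le_card_of_injOn (fun b => b.1.2)
          · intro b hb
            have hb' := (mem_filter.mp hb).2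
            rw [coe_range, Set.mem_Iio]
            have := b.2
            rw [hb'] at this
            exact this
          · intro b hb b' hb' h
            have hb1 := (mem_filter.mp hb).2
            have hb2 := (mem_filter.mp hb').2
            exact Subtype.ext (Prod.ext (hb1.trans hb2.symm) h)
        rw [h2]
        have h4 : ((F.filter (fun b => b.1.1 = l)).card : ℝ) ≤ NN l := by exact_mod_cast h3
        calc ((F.filter (fun b => b.1.1 = l)).card : ℝ) * (kap / NN l) ^ 2 ≤ NN l * (kap / NN l) ^ 2 :=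
              mul_le_mul_of_nonneg_right h4 (by positivity)
          _ = kap ^ 2 * (1 / (NN l : ℝ)) := by
              have := (NN_cast_pos l).ne'
              field_simp
    _ = kap ^ 2 * ∑ l ∈ Ico 1 (n + 1), (1 / (NN l : ℝ)) := by rw [mul_sum]
    _ ≤ kap ^ 2 * rr 0 := mul_le_mul_of_nonneg_left (sum_inv_le n) (by positivity)

end Pool.Agent.TH862.EA
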